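import Pool.Agent.U152.FS.Coc
import Pool.Agent.U152.MU.Det

/-!
# Decomposition and inertia groups; the layers of the cyclotomic extension
-/

set_option autoImplicit false

namespace Pool.Agent.U152.FS

open Subgroup Module IntermediateField Pool.Agent.Q60.MU Pool.Agent.W5h77.MB Pool.Agent.U152.MU
open scoped Pointwise

open Classical in
/-- The decomposition group of the valuation ring `w` if `w` lies above a prime number in `S`, and the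
inertia group otherwise. -/
noncomputable def loc (S : Set ℕ) (w : ValuationSubring Qb) : Subgroup Gal(Qb/ℚ) :=
  if ∃ ℓ ∈ S, (ℓ : Qb) ∈ w.nonunits then MulAction.stabilizer Gal(Qb/ℚ) w else inertia w

theorem inertia_le_stab (w : ValuationSubring Qb) : inertia w ≤ MulAction.stabilizer Gal(Qb/ℚ) w :=
  fun _ h => h.1

theorem loc_pos {S : Set ℕ} {w : ValuationSubring Qb} (h : ∃ ℓ ∈ S, (ℓ : Qb) ∈ w.nonunits) :
    loc S w = MulAction.stabilizer Gal(Qb/ℚ) w := by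
  unfold loc
  rw [if_pos h]

theorem loc_neg {S : Set ℕ} {w : ValuationSubring Qb} (h : ¬ ∃ ℓ ∈ S, (ℓ : Qb) ∈ w.nonunits) :
    loc S w = inertia w := by
  unfold loc
  rw [if_neg h]

theorem loc_mono {S S' : Set ℕ} (h : S ⊆ S') (w : ValuationSubring Qb) : loc S w ≤ loc S' w := by
  by_cases h1 : ∃ ℓ ∈ S, (ℓ : Qb) ∈ w.nonunits
  · obtain ⟨ℓ, hℓ, h2⟩ := h1
    rw [loc_pos ⟨ℓ, hℓ, h2⟩, loc_pos ⟨ℓ, h hℓ, h2⟩]
  · rw [loc_neg h1]
    by_cases h2 : ∃ ℓ ∈ S', (ℓ : Qb) ∈ w.nonunits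
    · rw [loc_pos h2]
      exact inertia_le_stab w
    · rw [loc_neg h2]

theorem nonunits_smul (g : Gal(Qb/ℚ)) (w : ValuationSubring Qb) {x : Qb} (h : x ∈ w.nonunits) :
    g x ∈ (g • w).nonunits := by
  rw [ValuationSubring.mem_nonunits_iff_or] at h ⊢
  rcases h with h | h
  · left
    rw [h, map_zero]
  · right
    intro h7
    apply h
    have h8 : (g x)⁻¹ = g • x⁻¹ := by
      show (g x)⁻¹ = g x⁻¹
      rw [map_inv₀]
    rw [h8] at h7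
    exact ValuationSubring.smul_mem_pointwise_smul_iff.1 h7

theorem nat_nonunits (g : Gal(Qb/ℚ)) (w : ValuationSubring Qb) (ℓ : ℕ) :
    (ℓ : Qb) ∈ (g • w).nonunits ↔ (ℓ : Qb) ∈ w.nonunits := by
  constructor
  · intro h
    have h1 := nonunits_smul g⁻¹ (g • w) h
    rwa [inv_smul_smul, map_natCast] at h1
  · intro h
    have h1 := nonunits_smul g w h
    rwa [map_natCast] at h1

theorem loc_conj (S : Set ℕ) (g : Gal(Qb/ℚ)) (w : ValuationSubring Qb) :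
    ∀ x ∈ loc S w, g * x * g⁻¹ ∈ loc S (g • w) := by
  intro x hx
  by_cases h : ∃ ℓ ∈ S, (ℓ : Qb) ∈ w.nonunits
  · obtain ⟨ℓ, hℓ, h1⟩ := h
    rw [loc_pos ⟨ℓ, hℓ, h1⟩] at hx
    rw [loc_pos ⟨ℓ, hℓ, (nat_nonunits g w ℓ).2 h1⟩, MulAction.mem_stabilizer_iff, mul_smul, mul_smul,
      inv_smul_smul, MulAction.mem_stabilizer_iff.1 hx]
  · rw [loc_neg h] at hx
    have h2 : ¬ ∃ ℓ ∈ S, (ℓ : Qb) ∈ (g • w).nonunits := by
      rintro ⟨ℓ, hℓ, h1⟩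
      exact h ⟨ℓ, hℓ, (nat_nonunits g w ℓ).1 h1⟩
    rw [loc_neg h2]
    exact inertia_conj g w x hx

/-- `S` is a finite set of prime numbers. -/
def Primes (S : Set ℕ) : Prop := S.Finite ∧ ∀ ℓ ∈ S, ℓ.Prime

theorem finRam_loc {S : Set ℕ} (hS : Primes S) : FinRam (loc S) := by
  classical
  intro M hM
  obtain ⟨S', h1, h2⟩ := finRam_inertia M hM
  refine ⟨S' ∪ hS.1.toFinset, fun ℓ hℓ => ?_, fun w => ?_⟩
  · rcases Finset.mem_union.1 hℓ with h | h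
    · exact h1 ℓ h
    · exact hS.2 ℓ (hS.1.mem_toFinset.1 h)
  · by_cases h : ∃ ℓ ∈ S, (ℓ : Qb) ∈ w.nonunits
    · obtain ⟨ℓ, hℓ, h3⟩ := h
      exact Or.inr ⟨ℓ, Finset.mem_union_right _ (hS.1.mem_toFinset.2 hℓ), h3⟩
    · rw [loc_neg h]
      rcases h2 w with h3 | ⟨ℓ, hℓ, h3⟩
      · exact Or.inl h3
      · exact Or.inr ⟨ℓ, Finset.mem_union_left _ hℓ, h3⟩

theorem big_iff {N : Subgroup Gal(Qb/ℚ)} :
    Big N ↔ ∃ M : IntermediateField ℚ Qb, FiniteDimensional ℚ M ∧ M.fixingSubgroup ≤ N := by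
  constructor
  · rintro ⟨h1, h2⟩
    exact ⟨fixedField N, finite_fixed h1 h2, (fix_fixed h1).le⟩
  · rintro ⟨M, hM, h⟩
    refine ⟨Subgroup.isOpen_mono h M.fixingSubgroup_isOpen, fun h0 => index_ne_zero' M ?_⟩
    exact Nat.eq_zero_of_zero_dvd (h0 ▸ index_dvd_of_le h)

theorem big_fix (M : IntermediateField ℚ Qb) [FiniteDimensional ℚ M] : Big M.fixingSubgroup :=
  big_iff.2 ⟨M, inferInstance, le_rfl⟩

theorem Big.mono {N M : Subgroup Gal(Qb/ℚ)} (h : Big N) (hNM : N ≤ M) : Big M := by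
  obtain ⟨K, hK, h1⟩ := big_iff.1 h
  exact big_iff.2 ⟨K, hK, h1.trans hNM⟩

/-- The numbers of the homomorphisms in the layers are bounded. -/
def HomBdd (p : ℕ) (S : Set ℕ) (L : Subgroup Gal(Qb/ℚ)) : Prop :=
  ∃ C : ℕ, ∀ R ∈ Layers p, (JHom p (loc S) (L ⊓ R.fixingSubgroup) ⊤).encard ≤ (C : ℕ∞)

theorem homBdd_iff {p : ℕ} [hp : Fact p.Prime] {S : Set ℕ} {L : Subgroup Gal(Qb/ℚ)} (hL : Big L) :
    HomBdd p S L ↔ MuS p (loc S) (Layers p) L := by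
  have hb : ∀ R ∈ Layers p, Big (L ⊓ R.fixingSubgroup) := fun R hR => by
    have := (lay_layers hp.out R hR).1
    exact hL.inf (big_fix R)
  constructor
  · rintro ⟨C, hC⟩
    refine ⟨C, fun R hR => rank_le (hC R hR) fun W hW hWo hWf => ?_⟩
    refine ⟨hWo, ?_⟩
    rw [← relIndex_mul_index hW]
    exact mul_ne_zero hWf (hb R hR).2
  · rintro ⟨C, hC⟩
    exact ⟨p ^ C, fun R hR => hom_le (hb R hR).1 (hC R hR)⟩

/-- The numbers of the cocycles in the layers are bounded. -/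
def WBdd {p : ℕ} {A : Type} [AddCommGroup A] [Module (ZMod p) A] {U : Subgroup Gal(Qb/ℚ)}
    (S : Set ℕ) (ρ : Representation (ZMod p) U A) (V₀ : Subgroup Gal(Qb/ℚ))
    (M : Submodule (ZMod p) A) : Prop :=
  ∃ C : ℕ, ∀ R ∈ Layers p, (Weak (loc S) ρ R.fixingSubgroup V₀ M).encard ≤ (C : ℕ∞)

theorem relIndex_inf_le' {L D : Subgroup Gal(Qb/ℚ)} (hL : L.index ≠ 0) :
    (L ⊓ D).relIndex D ≠ 0 ∧ (L ⊓ D).relIndex D ≤ L.index := by
  have h0 : L.relIndex ⊤ = L.index := relIndex_top_right L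
  rw [inf_relIndex_right]
  refine ⟨fun h => hL ?_, ?_⟩
  · rw [← h0]
    exact absurd h (by
      have : L.FiniteIndex := ⟨hL⟩
      exact Subgroup.FiniteIndex.index_ne_zero (H := L.subgroupOf D))
  · rw [← h0]
    exact relIndex_le_of_le_right le_top (by rw [h0]; exact hL)

/-- The exceptional places. -/
theorem exists_exc {p : ℕ} [hp : Fact p.Prime] {S : Set ℕ} (hS : Primes S)
    {L V₀ : Subgroup Gal(Qb/ℚ)} (hL : Big L) (hV : Big V₀) :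
    ∃ t : ℕ, ∀ R ∈ Layers p, ∃ T : Finset (ValuationSubring Qb), T.card ≤ t ∧
      ∀ w, loc S w ⊓ (L ⊓ R.fixingSubgroup) ≤ V₀ ∨
        ∃ u ∈ T, ∃ d ∈ L ⊓ R.fixingSubgroup, w = d • u := by
  classical
  obtain ⟨S', hS', hSA⟩ := finRam_loc hS (fixedField V₀) (finite_fixed hV.1 hV.2)
  rw [fix_fixed hV.1] at hSA
  choose! t T hTt hT using fun ℓ (hℓ : ℓ.Prime) => fin_cyc hp.out ℓ hℓ
  refine ⟨L.index * ∑ ℓ ∈ S', t ℓ, fun R hR => ?_⟩
  obtain ⟨N, hN⟩ := (lay_layers hp.out R hR).2.2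
  obtain ⟨h1, h2⟩ := relIndex_inf_le' (D := R.fixingSubgroup) hL.2
  obtain ⟨T', hT'c, hT'⟩ := exists_TL h1 (S'.biUnion fun ℓ => T ℓ N)
  refine ⟨T', hT'c.trans (Nat.mul_le_mul h2 ?_), fun w => ?_⟩
  · exact Finset.card_biUnion_le.trans (Finset.sum_le_sum fun ℓ hℓ => hTt ℓ (hS' ℓ hℓ) N)
  · rcases hSA w with h | ⟨ℓ, hℓ, hℓA⟩
    · exact Or.inl (inf_le_left.trans h)
    · right
      obtain ⟨B, hB, σ, hσ, h3⟩ := hT ℓ (hS' ℓ hℓ) N w hℓA
      rw [h3]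
      exact hT' B (Finset.mem_biUnion.2 ⟨ℓ, hℓ, hB⟩) σ (fixingSubgroup_le hN hσ)

/-- One step in a filtration of the module. -/
theorem wstep {p : ℕ} [hp : Fact p.Prime] {A : Type} [AddCommGroup A] [Module (ZMod p) A] [Finite A]
    {U : Subgroup Gal(Qb/ℚ)} {S : Set ℕ} (hS : Primes S) {ρ : Representation (ZMod p) U A}
    {V₀ : Subgroup Gal(Qb/ℚ)} (hVn : V₀.Normal) (hV : Big V₀) (hVU : V₀ ≤ U)
    (htriv : ∀ (g : Gal(Qb/ℚ)) (h : g ∈ V₀) (a : A), ρ ⟨g, hVU h⟩ a = a)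
    {M' M : Submodule (ZMod p) A} (hM' : Inv ρ M') (hM : Inv ρ M)
    (lam : A →ₗ[ZMod p] ZMod p) (hsep : ∀ a ∈ M, (∀ g, lam (ρ g a) = 0) → a ∈ M')
    (hmu : HomBdd p S (stabF ρ hM lam)) (h : WBdd S ρ V₀ M') : WBdd S ρ V₀ M := by
  have hVL : V₀ ≤ stabF ρ hM lam := fun g hg => ⟨hVU hg, fun a _ => by rw [htriv g hg]⟩
  obtain ⟨t, ht⟩ := exists_exc (p := p) hS (hV.mono hVL) hV
  obtain ⟨C, hC⟩ := hmu
  obtain ⟨D, hD⟩ := h
  refine ⟨D * (C * (p ^ V₀.index) ^ t) ^ V₀.relIndex U * Nat.card A ^ V₀.relIndex U, fun R hR => ?_⟩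
  obtain ⟨T, hTt, hT⟩ := ht R hR
  have hRg := (lay_layers hp.out R hR).2.1
  have h0 : V₀.relIndex ⊤ = V₀.index := relIndex_top_right V₀
  have hVF : V₀.FiniteIndex := ⟨hV.2⟩
  refine step (loc_conj S) ((InfiniteGalois.normal_iff_isGalois R).2 hRg) hVn hV.2 hVU htriv hM' hM lam
    hsep ?_ (hD R hR)
  refine hom_weak (loc_conj S) (Subgroup.FiniteIndex.index_ne_zero (H := V₀.subgroupOf _)) ?_ T hTt hT
    (hC R hR)
  rw [← h0]
  exact relIndex_le_of_le_right le_top (by rw [h0]; exact hV.2)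

end Pool.Agent.U152.FS
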