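import Pool.Agent.Q60.MU.Reduction

/-!
# Counting homomorphisms with local conditions
-/

set_option autoImplicit false

namespace Pool.Agent.U152.FS

open Subgroup Module Pool.Agent.Q60.MU
open scoped commutatorElement

theorem encard_le {α : Type} {s : Set α} {C : ℕ}
    (h : ∀ T : Finset α, (T : Set α) ⊆ s → T.card ≤ C) : s.encard ≤ (C : ℕ∞) := by
  by_contra hcon
  push Not at hcon
  have h1 : ((C + 1 : ℕ) : ℕ∞) ≤ s.encard := by
    push_cast
    exact Order.add_one_le_of_lt hcon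
  obtain ⟨t, ht, hte⟩ := Set.exists_subset_encard_eq h1
  have hfin : t.Finite := Set.finite_of_encard_eq_coe hte
  have h2 := h hfin.toFinset (by rw [hfin.coe_toFinset]; exact ht)
  rw [hfin.encard_eq_coe_toFinset_card] at hte
  have h3 : hfin.toFinset.card = C + 1 := by exact_mod_cast hte
  omega

theorem card_le {α : Type} {s : Set α} {C : ℕ} (h : s.encard ≤ (C : ℕ∞)) (T : Finset α)
    (hT : (T : Set α) ⊆ s) : T.card ≤ C := by
  have h1 := Set.encard_le_encard hT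
  rw [Set.encard_coe_eq_coe_finsetCard] at h1
  exact_mod_cast h1.trans h

theorem fiber_le {α β : Type} {s : Set α} {t : Set β} (f : α → β) (hf : ∀ x ∈ s, f x ∈ t)
    {B D : ℕ} (hB : t.encard ≤ (B : ℕ∞))
    (h : ∀ T : Finset α, (T : Set α) ⊆ s → (∀ x ∈ T, ∀ y ∈ T, f x = f y) → T.card ≤ D) :
    s.encard ≤ ((D * B : ℕ) : ℕ∞) := by
  classical
  refine encard_le fun T hT => ?_
  refine (Finset.card_le_mul_card_image (f := f) T D fun a _ => ?_).trans ?_
  · refine h _ (fun x hx => hT ?_) ?_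
    · exact Finset.mem_coe.2 (Finset.mem_filter.1 (Finset.mem_coe.1 hx)).1
    · intro x hx y hy
      rw [(Finset.mem_filter.1 hx).2, (Finset.mem_filter.1 hy).2]
  · refine Nat.mul_le_mul_left _ (card_le hB _ ?_)
    intro x hx
    obtain ⟨y, hy, rfl⟩ := Finset.mem_image.1 (Finset.mem_coe.1 hx)
    exact hf y (hT hy)

theorem pi_le {ι γ : Type} [Finite ι] {s : Set γ} {B : ℕ} (hB : s.encard ≤ (B : ℕ∞)) :
    {φ : ι → γ | ∀ i, φ i ∈ s}.encard ≤ ((B ^ Nat.card ι : ℕ) : ℕ∞) := by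
  classical
  have hfin : s.Finite := Set.finite_of_encard_le_coe hB
  have : Finite s := hfin
  have hBs : Nat.card s ≤ B := by
    have h1 : s.encard = (Nat.card s : ℕ∞) := by
      rw [Nat.card_coe_set_eq, hfin.cast_ncard_eq]
    rw [h1] at hB
    exact_mod_cast hB
  refine encard_le fun T hT => ?_
  have h1 : Nat.card T ≤ Nat.card (ι → s) :=
    Nat.card_le_card_of_injective (fun φ : T => fun i => (⟨φ.1 i, hT φ.2 i⟩ : s)) (by
      intro φ ψ h
      apply Subtype.ext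
      funext i
      exact congrArg Subtype.val (congrFun h i))
  rw [Nat.card_fun, Nat.card_eq_fintype_card, Fintype.card_coe] at h1
  exact h1.trans (Nat.pow_le_pow_left hBs _)

variable {𝔾 : Type} [Group 𝔾] [TopologicalSpace 𝔾]

/-- an open subgroup of finite index -/
def Big (N : Subgroup 𝔾) : Prop := IsOpen (N : Set 𝔾) ∧ N.index ≠ 0

theorem Big.inf {N M : Subgroup 𝔾} (h : Big N) (h' : Big M) : Big (N ⊓ M) := by
  refine ⟨?_, Subgroup.index_inf_ne_zero h.2 h'.2⟩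
  rw [Subgroup.coe_inf]
  exact h.1.inter h'.1

theorem Big.core [ContinuousMul 𝔾] {N : Subgroup 𝔾} (h : Big N) : Big N.normalCore := by
  have : N.FiniteIndex := ⟨h.2⟩
  exact ⟨isOpen_normalCore h.1 h.2, Subgroup.FiniteIndex.index_ne_zero⟩

/-- The continuous homomorphisms from `L` to `ℤ/p` which vanish on the `I w ∩ V₀`. -/
def JHom {Ω : Type} (p : ℕ) (I : Ω → Subgroup 𝔾) (L V₀ : Subgroup 𝔾) : Set (L → ZMod p) :=
  {h | (∀ x y, h (x * y) = h x + h y) ∧ (∃ N, Big N ∧ ∀ x : L, (x : 𝔾) ∈ N → h x = 0) ∧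
    ∀ w, ∀ x : L, (x : 𝔾) ∈ I w → (x : 𝔾) ∈ V₀ → h x = 0}

theorem add_one {L : Type} [Group L] {A : Type} [AddCommGroup A] {h : L → A}
    (ha : ∀ x y, h (x * y) = h x + h y) : h 1 = 0 := by
  have h1 := ha 1 1
  rw [mul_one] at h1
  exact left_eq_add.1 h1

theorem add_inv {L : Type} [Group L] {A : Type} [AddCommGroup A] {h : L → A}
    (ha : ∀ x y, h (x * y) = h x + h y) (x : L) : h x⁻¹ = - h x := by
  have h1 := ha x x⁻¹
  rw [mul_inv_cancel, add_one ha] at h1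
  exact (neg_eq_of_add_eq_zero_right h1.symm).symm

theorem add_pow {L : Type} [Group L] {A : Type} [AddCommGroup A] {h : L → A}
    (ha : ∀ x y, h (x * y) = h x + h y) (x : L) (n : ℕ) : h (x ^ n) = n • h x := by
  induction n with
  | zero => rw [pow_zero, zero_smul, add_one ha]
  | succ n ih => rw [pow_succ, ha, ih, succ_nsmul]

/-- the kernel of a homomorphism on `L` -/
def kerH {L : Subgroup 𝔾} {A : Type} [AddCommGroup A] (h : L → A)
    (ha : ∀ x y, h (x * y) = h x + h y) : Subgroup 𝔾 where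
  carrier := {x | ∃ hx : x ∈ L, h ⟨x, hx⟩ = 0}
  mul_mem' := by
    rintro a b ⟨h1, h2⟩ ⟨h3, h4⟩
    refine ⟨L.mul_mem h1 h3, ?_⟩
    have h5 := ha ⟨a, h1⟩ ⟨b, h3⟩
    rw [h2, h4, add_zero] at h5
    exact h5
  one_mem' := ⟨L.one_mem, add_one ha⟩
  inv_mem' := by
    rintro a ⟨h1, h2⟩
    refine ⟨L.inv_mem h1, ?_⟩
    have h3 := add_inv ha ⟨a, h1⟩
    rw [h2, neg_zero] at h3
    exact h3

theorem exists_W [ContinuousMul 𝔾] {Ω : Type} {p : ℕ} {I : Ω → Subgroup 𝔾} {L : Subgroup 𝔾}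
    (hLo : IsOpen (L : Set 𝔾)) (T : Finset (L → ZMod p)) (hT : (T : Set (L → ZMod p)) ⊆ JHom p I L ⊤) :
    ∃ W ≤ L, IsOpen (W : Set 𝔾) ∧ W.relIndex L ≠ 0 ∧ gens p I L ⊆ W ∧
      ∀ h ∈ T, ∀ x : L, (x : 𝔾) ∈ W → h x = 0 := by
  classical
  induction T using Finset.induction_on with
  | empty => exact ⟨L, le_rfl, hLo, by simp, gens_subset, by simp⟩
  | insert h T _ ih =>
    obtain ⟨W, h1, h2, h3, h4, h5⟩ := ih fun x hx => hT (Finset.mem_coe.2 (Finset.mem_insert_of_mem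
      (Finset.mem_coe.1 hx)))
    obtain ⟨ha, ⟨N, hN, hN0⟩, hw⟩ := hT (Finset.mem_coe.2 (Finset.mem_insert_self h T))
    have hle : L ⊓ N ≤ kerH h ha := fun x hx => ⟨hx.1, hN0 ⟨x, hx.1⟩ hx.2⟩
    refine ⟨W ⊓ kerH h ha, inf_le_left.trans h1, ?_, ?_, ?_, ?_⟩
    · rw [Subgroup.coe_inf]
      refine h2.inter (Subgroup.isOpen_mono hle ?_)
      rw [Subgroup.coe_inf]
      exact hLo.inter hN.1
    · refine relIndex_inf_ne_zero h3 ?_
      have h6 : (L ⊓ N).relIndex L ≠ 0 := by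
        rw [inf_comm, inf_relIndex_right]
        have : N.FiniteIndex := ⟨hN.2⟩
        have h7 : (N.subgroupOf L).FiniteIndex := inferInstance
        exact h7.index_ne_zero
      exact fun h7 => h6 (Nat.eq_zero_of_zero_dvd (h7 ▸ relIndex_dvd_of_le_left L hle))
    · intro x hx
      refine ⟨h4 hx, ?_⟩
      rcases hx with (⟨a, ha1, rfl⟩ | ⟨a, ha1, b, hb1, rfl⟩) | ⟨hx1, w, hw1⟩
      · refine ⟨L.pow_mem ha1 p, ?_⟩
        have h6 := add_pow ha ⟨a, ha1⟩ p
        have h7 : h (⟨a, ha1⟩ ^ p) = 0 := by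
          rw [h6, nsmul_eq_mul, ZMod.natCast_self, zero_mul]
        exact h7
      · have hab : ⁅a, b⁆ ∈ L := by
          rw [commutatorElement_def]
          exact L.mul_mem (L.mul_mem (L.mul_mem ha1 hb1) (L.inv_mem ha1)) (L.inv_mem hb1)
        refine ⟨hab, ?_⟩
        have h6 : h ⟨⁅a, b⁆, hab⟩ = h (⟨a, ha1⟩ * ⟨b, hb1⟩ * ⟨a, ha1⟩⁻¹ * ⟨b, hb1⟩⁻¹) := rfl
        rw [h6, ha, ha, ha, add_inv ha, add_inv ha]
        abel
      · exact ⟨hx1, hw w ⟨x, hx1⟩ hw1 (Subgroup.mem_top _)⟩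
    · intro g hg x hx
      rcases Finset.mem_insert.1 hg with rfl | hg
      · obtain ⟨h6, h7⟩ := hx.2
        exact h7
      · exact h5 g hg x hx.1

/-- The number of the homomorphisms is bounded by the rank. -/
theorem hom_le [ContinuousMul 𝔾] {Ω : Type} {p : ℕ} [hp : Fact p.Prime] {I : Ω → Subgroup 𝔾}
    {L : Subgroup 𝔾} (hLo : IsOpen (L : Set 𝔾)) {C : ℕ} (hC : RankLe p I L C) :
    (JHom p I L ⊤).encard ≤ ((p ^ C : ℕ) : ℕ∞) := by
  classical
  refine encard_le fun T hT => ?_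
  obtain ⟨W, h1, h2, h3, h4, h5⟩ := exists_W hLo T hT
  have hfi : (W.subgroupOf L).FiniteIndex := ⟨h3⟩
  have hfin : Finite (L ⧸ W.subgroupOf L) := inferInstance
  have h6 : Nat.card T ≤ Nat.card (L ⧸ W.subgroupOf L → ZMod p) :=
    Nat.card_le_card_of_injective (fun φ : T => fun q => φ.1 q.out) (by
      intro φ ψ h
      apply Subtype.ext
      funext x
      obtain ⟨u, hu⟩ := QuotientGroup.mk_out_eq_mul (W.subgroupOf L) x
      have h7 := congrFun h (x : L ⧸ W.subgroupOf L)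
      simp only at h7
      have ha := (hT φ.2).1
      have hb := (hT ψ.2).1
      rw [hu, ha, hb, h5 _ φ.2 u u.2, h5 _ ψ.2 u u.2, add_zero, add_zero] at h7
      exact h7)
  rw [Nat.card_fun, Nat.card_eq_fintype_card, Fintype.card_coe, Nat.card_zmod] at h6
  exact h6.trans (Nat.pow_le_pow_right hp.out.pos (hC W h1 h2 h3 h4))

/-- The rank is bounded by the number of the homomorphisms. -/
theorem rank_le {Ω : Type} {p : ℕ} [hp : Fact p.Prime] {I : Ω → Subgroup 𝔾}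
    {L : Subgroup 𝔾} {C : ℕ} (hC : (JHom p I L ⊤).encard ≤ (C : ℕ∞))
    (hbig : ∀ W ≤ L, IsOpen (W : Set 𝔾) → W.relIndex L ≠ 0 → Big W) : RankLe p I L C := by
  classical
  intro W h1 h2 h3 h4
  have hWn : ∀ d ∈ L, ∀ x ∈ W, d * x * d⁻¹ ∈ W := by
    intro d hd x hx
    have h5 : d * x * d⁻¹ = ⁅d, x⁆ * x := by
      rw [commutatorElement_def]
      group
    rw [h5]
    exact W.mul_mem (h4 (Or.inl (Or.inr ⟨d, hd, x, h1 hx, rfl⟩))) hx
  obtain ⟨V, _, _, _, ρ, π, hs, ha, h0, -⟩ := exists_rep (K := L) (D := L) (W := W) le_rfl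
    (fun d hd x hx => L.mul_mem (L.mul_mem hd hx) (L.inv_mem hd)) h3 h4 hWn
  have hV : Finite V := Module.finite_of_finite (ZMod p)
  have hcard : W.relIndex L = Nat.card V := by
    let φ : L →* Multiplicative V :=
      { toFun := fun x => Multiplicative.ofAdd (π x)
        map_one' := by
          rw [add_one ha]
          rfl
        map_mul' := fun x y => by
          rw [ha]
          rfl }
    have h5 : W.subgroupOf L = φ.ker := by
      ext x
      rw [mem_subgroupOf, MonoidHom.mem_ker, ← h0]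
      rfl
    have h6 : Function.Surjective φ := fun y => by
      obtain ⟨x, hx⟩ := hs (Multiplicative.toAdd y)
      exact ⟨x, congrArg Multiplicative.ofAdd hx⟩
    rw [relIndex, h5, index_ker, MonoidHom.range_eq_top.2 h6, card_top]
    rfl
  have hdual : Nat.card V = Nat.card (Module.Dual (ZMod p) V) := by
    rw [Module.natCard_eq_pow_finrank (K := ZMod p) (V := V),
      Module.natCard_eq_pow_finrank (K := ZMod p) (V := Module.Dual (ZMod p) V),
      Subspace.dual_finrank_eq]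
  rw [hcard, hdual]
  have hinj : Function.Injective (fun (f : Module.Dual (ZMod p) V) (x : L) => f (π x)) := by
    intro f g h
    apply LinearMap.ext
    intro v
    obtain ⟨x, rfl⟩ := hs v
    exact congrFun h x
  have hfd : Finite (Module.Dual (ZMod p) V) := Module.finite_of_finite (ZMod p)
  have := Fintype.ofFinite (Module.Dual (ZMod p) V)
  rw [Nat.card_eq_fintype_card, ← Finset.card_univ, ← Finset.card_image_of_injective _ hinj]
  refine card_le hC _ ?_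
  intro h hh
  obtain ⟨f, -, rfl⟩ := Finset.mem_image.1 (Finset.mem_coe.1 hh)
  refine ⟨fun x y => ?_, ⟨W, hbig W h1 h2 h3, fun x hx => ?_⟩, fun w x hx _ => ?_⟩
  · show f (π (x * y)) = f (π x) + f (π y)
    rw [ha, map_add]
  · show f (π x) = 0
    rw [(h0 x).2 hx, map_zero]
  · show f (π x) = 0
    rw [(h0 x).2 (h4 (Or.inr ⟨x.2, w, hx⟩)), map_zero]

/-- Weaker local conditions. -/
theorem hom_weak {Ω : Type} [MulAction 𝔾 Ω] {p : ℕ} [hp : Fact p.Prime] {I : Ω → Subgroup 𝔾}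
    (hI : ∀ (g : 𝔾) (w : Ω), ∀ x ∈ I w, g * x * g⁻¹ ∈ I (g • w)) {L V₀ : Subgroup 𝔾} {n t C : ℕ}
    (hn0 : V₀.relIndex L ≠ 0) (hn : V₀.relIndex L ≤ n) (T : Finset Ω) (hTt : T.card ≤ t)
    (hT : ∀ w, I w ⊓ L ≤ V₀ ∨ ∃ u ∈ T, ∃ d ∈ L, w = d • u)
    (hC : (JHom p I L ⊤).encard ≤ (C : ℕ∞)) :
    (JHom p I L V₀).encard ≤ ((C * (p ^ n) ^ t : ℕ) : ℕ∞) := by
  classical
  have hfi : ∀ u, (V₀.subgroupOf (I u ⊓ L)).FiniteIndex := fun u =>
    ⟨fun h => hn0 (relIndex_eq_zero_of_le_right inf_le_right h)⟩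
  have hfin : ∀ u, Finite ((I u ⊓ L : Subgroup 𝔾) ⧸ V₀.subgroupOf (I u ⊓ L)) := fun u => by
    have := hfi u
    infer_instance
  let f : (L → ZMod p) → ((u : T) → ((I u.1 ⊓ L : Subgroup 𝔾) ⧸ V₀.subgroupOf (I u.1 ⊓ L)) → ZMod p) :=
    fun h u q => h ⟨q.out.1, q.out.2.2⟩
  refine fiber_le f (t := Set.univ) (fun _ _ => Set.mem_univ _) (B := (p ^ n) ^ t) ?_ ?_
  · rw [Set.encard_univ, ENat.card_eq_coe_natCard]
    have h1 : Nat.card ((u : T) → ((I u.1 ⊓ L : Subgroup 𝔾) ⧸ V₀.subgroupOf (I u.1 ⊓ L)) → ZMod p) ≤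
        (p ^ n) ^ t := by
      rw [Nat.card_pi]
      calc ∏ u : T, Nat.card (((I u.1 ⊓ L : Subgroup 𝔾) ⧸ V₀.subgroupOf (I u.1 ⊓ L)) → ZMod p)
          ≤ ∏ _u : T, p ^ n := by
            refine Finset.prod_le_prod' fun u _ => ?_
            rw [Nat.card_fun, Nat.card_zmod]
            refine Nat.pow_le_pow_right hp.out.pos (le_trans ?_ hn)
            exact relIndex_le_of_le_right inf_le_right hn0
        _ = (p ^ n) ^ T.card := by
            rw [Finset.prod_const, Finset.card_univ, Fintype.card_coe]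
        _ ≤ (p ^ n) ^ t := Nat.pow_le_pow_right (Nat.pow_pos hp.out.pos) hTt
    exact_mod_cast h1
  · intro T' hT' hf
    rcases T'.eq_empty_or_nonempty with rfl | ⟨h₀, hh₀⟩
    · simp
    rw [← Finset.card_image_of_injective T' (sub_left_injective (b := h₀))]
    refine card_le hC _ ?_
    intro g hg
    obtain ⟨h, hh, rfl⟩ := Finset.mem_image.1 (Finset.mem_coe.1 hg)
    obtain ⟨a1, ⟨N, hN, b1⟩, c1⟩ := hT' (Finset.mem_coe.2 hh)
    obtain ⟨a2, ⟨M, hM, b2⟩, c2⟩ := hT' (Finset.mem_coe.2 hh₀)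
    have hadd : ∀ x y, (h - h₀) (x * y) = (h - h₀) x + (h - h₀) y := by
      intro x y
      rw [Pi.sub_apply, Pi.sub_apply, Pi.sub_apply, a1, a2]
      abel
    refine ⟨hadd, ⟨N ⊓ M, hN.inf hM, fun x hx => ?_⟩, fun w x hx _ => ?_⟩
    · rw [Pi.sub_apply, b1 x hx.1, b2 x hx.2, sub_self]
    · rcases hT w with h1 | ⟨u, hu, d, hd, rfl⟩
      · have h2 : (x : 𝔾) ∈ V₀ := h1 ⟨hx, x.2⟩
        rw [Pi.sub_apply, c1 w x hx h2, c2 w x hx h2, sub_self]
      · -- transport to `u`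
        have hx' : (d⁻¹ * x * d : 𝔾) ∈ I u := by
          have h1 := hI d⁻¹ (d • u) x hx
          rwa [inv_inv, inv_smul_smul] at h1
        have hxL : (d⁻¹ * x * d : 𝔾) ∈ L := L.mul_mem (L.mul_mem (L.inv_mem hd) x.2) hd
        let y : (I u ⊓ L : Subgroup 𝔾) := ⟨d⁻¹ * x * d, hx', hxL⟩
        obtain ⟨v, hv⟩ := QuotientGroup.mk_out_eq_mul (V₀.subgroupOf (I u ⊓ L)) y
        have key : ∀ k : L → ZMod p, k ∈ JHom p I L V₀ →
            k x = k ⟨((y : ((I u ⊓ L : Subgroup 𝔾) ⧸ V₀.subgroupOf (I u ⊓ L))).out).1,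
              ((y : ((I u ⊓ L : Subgroup 𝔾) ⧸ V₀.subgroupOf (I u ⊓ L))).out).2.2⟩ := by
          rintro k ⟨ka, -, kc⟩
          have e1 : (⟨((y : ((I u ⊓ L : Subgroup 𝔾) ⧸ V₀.subgroupOf (I u ⊓ L))).out).1,
              ((y : ((I u ⊓ L : Subgroup 𝔾) ⧸ V₀.subgroupOf (I u ⊓ L))).out).2.2⟩ : L) =
              (⟨d, hd⟩⁻¹ * x * ⟨d, hd⟩) * ⟨v.1.1, v.1.2.2⟩ := by
            apply Subtype.ext
            show ((y : ((I u ⊓ L : Subgroup 𝔾) ⧸ V₀.subgroupOf (I u ⊓ L))).out).1 = _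
            rw [hv]
            rfl
          rw [e1, ka, ka, ka, add_inv ka, kc u ⟨v.1.1, v.1.2.2⟩ v.1.2.1 v.2]
          abel
        have h3 : f h ⟨u, hu⟩ y = f h₀ ⟨u, hu⟩ y := by rw [hf h hh h₀ hh₀]
        rw [Pi.sub_apply, key h (hT' (Finset.mem_coe.2 hh)), key h₀ (hT' (Finset.mem_coe.2 hh₀)),
          sub_eq_zero]
        exact h3

end Pool.Agent.U152.FS
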