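import Pool.Agent.U152.FS.Cnt

/-!
# Counting cocycles with local conditions
-/

set_option autoImplicit false

namespace Pool.Agent.U152.FS

open Subgroup Module Pool.Agent.Q60.MU

variable {𝔾 : Type} [Group 𝔾] {p : ℕ} {A : Type} [AddCommGroup A] [Module (ZMod p) A]
  {U : Subgroup 𝔾}

/-- `M` is a submodule. -/
def Inv (ρ : Representation (ZMod p) U A) (M : Submodule (ZMod p) A) : Prop :=
  ∀ g, ∀ x ∈ M, ρ g x ∈ M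

/-- The stabilizer in `U` of the functional `lam` on the stable subspace `M`. -/
def stabF (ρ : Representation (ZMod p) U A) {M : Submodule (ZMod p) A} (hM : Inv ρ M)
    (lam : A →ₗ[ZMod p] ZMod p) : Subgroup 𝔾 where
  carrier := {g | ∃ h : g ∈ U, ∀ a ∈ M, lam (ρ ⟨g, h⟩ a) = lam a}
  mul_mem' := by
    rintro x y ⟨h1, h2⟩ ⟨h3, h4⟩
    refine ⟨U.mul_mem h1 h3, fun a ha => ?_⟩
    have h5 : ρ ⟨x * y, U.mul_mem h1 h3⟩ a = ρ ⟨x, h1⟩ (ρ ⟨y, h3⟩ a) := by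
      rw [← Module.End.mul_apply, ← map_mul]
      rfl
    rw [h5, h2 _ (hM _ a ha), h4 a ha]
  one_mem' := by
    refine ⟨U.one_mem, fun a _ => ?_⟩
    have h5 : ρ ⟨1, U.one_mem⟩ a = a := by
      have : ρ ⟨1, U.one_mem⟩ = 1 := map_one ρ
      rw [this]
      rfl
    rw [h5]
  inv_mem' := by
    rintro x ⟨h1, h2⟩
    refine ⟨U.inv_mem h1, fun a ha => ?_⟩
    have h5 : ρ ⟨x, h1⟩ (ρ ⟨x⁻¹, U.inv_mem h1⟩ a) = a := by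
      rw [← Module.End.mul_apply, ← map_mul]
      have h6 : (⟨x, h1⟩ * ⟨x⁻¹, U.inv_mem h1⟩ : U) = 1 := Subtype.ext (mul_inv_cancel x)
      rw [h6, map_one]
      rfl
    have h6 := h2 _ (hM ⟨x⁻¹, U.inv_mem h1⟩ a ha)
    rw [h5] at h6
    exact h6.symm

variable [TopologicalSpace 𝔾] {Ω : Type}

/-- The continuous cocycles on `U ⊓ D` with values in `M` which vanish on the `I w ∩ V₀`. -/
def Weak (I : Ω → Subgroup 𝔾) (ρ : Representation (ZMod p) U A) (D V₀ : Subgroup 𝔾)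
    (M : Submodule (ZMod p) A) : Set (↥(U ⊓ D) → A) :=
  {z | (∀ g h : ↥(U ⊓ D), z (g * h) = z g + ρ ⟨g, g.2.1⟩ (z h)) ∧
    (∃ N, Big N ∧ ∀ g : ↥(U ⊓ D), (g : 𝔾) ∈ N → z g = 0) ∧ (∀ g, z g ∈ M) ∧
    ∀ w, ∀ g : ↥(U ⊓ D), (g : 𝔾) ∈ I w → (g : 𝔾) ∈ V₀ → z g = 0}

/-- conjugation -/
def cj {D : Subgroup 𝔾} (hD : D.Normal) (u : U) (x : ↥(U ⊓ D)) : ↥(U ⊓ D) :=
  ⟨(u : 𝔾)⁻¹ * x * u, U.mul_mem (U.mul_mem (U.inv_mem u.2) x.2.1) u.2, by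
    have h1 := hD.conj_mem x x.2.2 (u : 𝔾)⁻¹
    rwa [inv_inv] at h1⟩

theorem cj_mul {D : Subgroup 𝔾} (hD : D.Normal) (u : U) (x y : ↥(U ⊓ D)) :
    cj hD u (x * y) = cj hD u x * cj hD u y := by
  apply Subtype.ext
  show (u : 𝔾)⁻¹ * (x * y) * u = (u : 𝔾)⁻¹ * x * u * ((u : 𝔾)⁻¹ * y * u)
  group

/-- The homomorphisms attached to a cocycle. -/
def hm {D : Subgroup 𝔾} (hD : D.Normal) (ρ : Representation (ZMod p) U A)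
    {M : Submodule (ZMod p) A} (hM : Inv ρ M) (lam : A →ₗ[ZMod p] ZMod p)
    (z : ↥(U ⊓ D) → A) (u : U) : ↥(stabF ρ hM lam ⊓ D) → ZMod p :=
  fun x => lam (ρ u (z (cj hD u ⟨x, x.2.1.1, x.2.2⟩)))

theorem hm_mem [ContinuousMul 𝔾] [MulAction 𝔾 Ω] {I : Ω → Subgroup 𝔾}
    (hI : ∀ (g : 𝔾) (w : Ω), ∀ x ∈ I w, g * x * g⁻¹ ∈ I (g • w))
    {D V₀ : Subgroup 𝔾} (hD : D.Normal) (hVn : V₀.Normal) {ρ : Representation (ZMod p) U A}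
    {M : Submodule (ZMod p) A} (hM : Inv ρ M) (lam : A →ₗ[ZMod p] ZMod p)
    {z : ↥(U ⊓ D) → A} (hz : z ∈ Weak I ρ D V₀ M) (u : U) :
    hm hD ρ hM lam z u ∈ JHom p I (stabF ρ hM lam ⊓ D) V₀ := by
  obtain ⟨h1, ⟨N, hN, h2⟩, h3, h4⟩ := hz
  refine ⟨fun x y => ?_, ⟨N.normalCore, hN.core, fun x hx => ?_⟩, fun w x hx hxV => ?_⟩
  · show lam (ρ u (z (cj hD u (⟨x, x.2.1.1, x.2.2⟩ * ⟨y, y.2.1.1, y.2.2⟩)))) = _
    rw [cj_mul, h1, map_add, map_add]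
    congr 1
    have h5 : ρ u (ρ ⟨cj hD u ⟨x, x.2.1.1, x.2.2⟩, (cj hD u ⟨x, x.2.1.1, x.2.2⟩).2.1⟩
        (z (cj hD u ⟨y, y.2.1.1, y.2.2⟩))) =
        ρ ⟨x, x.2.1.1⟩ (ρ u (z (cj hD u ⟨y, y.2.1.1, y.2.2⟩))) := by
      rw [← Module.End.mul_apply, ← Module.End.mul_apply, ← map_mul, ← map_mul]
      congr 2
      apply Subtype.ext
      show (u : 𝔾) * ((u : 𝔾)⁻¹ * x * u) = x * u
      group
    rw [h5]
    obtain ⟨hxU, hx⟩ := x.2.1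
    exact hx _ (hM _ _ (h3 _))
  · show lam (ρ u (z (cj hD u ⟨x, x.2.1.1, x.2.2⟩))) = 0
    rw [h2, map_zero, map_zero]
    have h5 := hx (u : 𝔾)⁻¹
    rwa [inv_inv] at h5
  · show lam (ρ u (z (cj hD u ⟨x, x.2.1.1, x.2.2⟩))) = 0
    have h5 := hI (u : 𝔾)⁻¹ w x hx
    have h6 := hVn.conj_mem x hxV (u : 𝔾)⁻¹
    rw [inv_inv] at h5 h6
    rw [h4 _ _ h5 h6, map_zero, map_zero]

theorem diff_mem {I : Ω → Subgroup 𝔾} {D V₀ : Subgroup 𝔾} {ρ : Representation (ZMod p) U A}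
    {M : Submodule (ZMod p) A} {z z' : ↥(U ⊓ D) → A} (hz : z ∈ Weak I ρ D V₀ M)
    (hz' : z' ∈ Weak I ρ D V₀ M) : z - z' ∈ Weak I ρ D V₀ M := by
  obtain ⟨a1, ⟨N, hN, a2⟩, a3, a4⟩ := hz
  obtain ⟨b1, ⟨N', hN', b2⟩, b3, b4⟩ := hz'
  refine ⟨fun g h => ?_, ⟨N ⊓ N', hN.inf hN', fun g hg => ?_⟩, fun g => ?_, fun w g h1 h2 => ?_⟩
  · rw [Pi.sub_apply, Pi.sub_apply, Pi.sub_apply, a1, b1, map_sub]
    abel
  · rw [Pi.sub_apply, a2 g hg.1, b2 g hg.2, sub_self]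
  · exact M.sub_mem (a3 g) (b3 g)
  · rw [Pi.sub_apply, a4 w g h1 h2, b4 w g h1 h2, sub_self]

/-- One step in a filtration of the module. -/
theorem step [ContinuousMul 𝔾] [MulAction 𝔾 Ω] [hp : Fact p.Prime] [Finite A] {I : Ω → Subgroup 𝔾}
    (hI : ∀ (g : 𝔾) (w : Ω), ∀ x ∈ I w, g * x * g⁻¹ ∈ I (g • w))
    {D V₀ : Subgroup 𝔾} (hD : D.Normal) (hVn : V₀.Normal) (hVf : V₀.index ≠ 0)
    {ρ : Representation (ZMod p) U A} (hVU : V₀ ≤ U)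
    (htriv : ∀ (g : 𝔾) (h : g ∈ V₀) (a : A), ρ ⟨g, hVU h⟩ a = a)
    {M' M : Submodule (ZMod p) A} (hM' : Inv ρ M') (hM : Inv ρ M)
    (lam : A →ₗ[ZMod p] ZMod p) (hsep : ∀ a ∈ M, (∀ g, lam (ρ g a) = 0) → a ∈ M') {B C : ℕ}
    (hB : (JHom p I (stabF ρ hM lam ⊓ D) V₀).encard ≤ (B : ℕ∞))
    (hC : (Weak I ρ D V₀ M').encard ≤ (C : ℕ∞)) :
    (Weak I ρ D V₀ M).encard ≤
      ((C * B ^ V₀.relIndex U * Nat.card A ^ V₀.relIndex U : ℕ) : ℕ∞) := by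
  classical
  have hVF : V₀.FiniteIndex := ⟨hVf⟩
  have hUD : V₀.relIndex (U ⊓ D) ≤ V₀.relIndex U := relIndex_le_of_le_right inf_le_left
    (Subgroup.FiniteIndex.index_ne_zero (H := V₀.subgroupOf U))
  have hA : 0 < Nat.card A := Nat.card_pos
  -- the values at representatives
  let f₂ : (↥(U ⊓ D) → A) → (↥(U ⊓ D) ⧸ V₀.subgroupOf (U ⊓ D)) → A := fun z q => z q.out
  refine fiber_le f₂ (t := Set.univ) (fun _ _ => Set.mem_univ _) ?_ ?_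
  · rw [Set.encard_univ, ENat.card_eq_coe_natCard, Nat.card_fun]
    have h1 : Nat.card A ^ Nat.card (↥(U ⊓ D) ⧸ V₀.subgroupOf (U ⊓ D)) ≤
        Nat.card A ^ V₀.relIndex U := Nat.pow_le_pow_right hA hUD
    exact_mod_cast h1
  intro T hT hT2
  refine card_le (s := (T : Set (↥(U ⊓ D) → A))) ?_ T le_rfl
  let f₁ : (↥(U ⊓ D) → A) → (U ⧸ V₀.subgroupOf U) → (↥(stabF ρ hM lam ⊓ D) → ZMod p) :=
    fun z q => hm hD ρ hM lam z q.out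
  refine fiber_le f₁ (t := {φ | ∀ i, φ i ∈ JHom p I (stabF ρ hM lam ⊓ D) V₀})
    (fun z hz q => hm_mem hI hD hVn hM lam (hT hz) _) (pi_le hB) ?_
  intro T' hT' hf
  rcases T'.eq_empty_or_nonempty with rfl | ⟨z₀, hz₀⟩
  · simp
  rw [← Finset.card_image_of_injective T' (sub_left_injective (b := z₀))]
  refine card_le hC _ ?_
  intro d hd
  obtain ⟨z, hz, rfl⟩ := Finset.mem_image.1 (Finset.mem_coe.1 hd)
  have hzT := hT' (Finset.mem_coe.2 hz)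
  have hz₀T := hT' (Finset.mem_coe.2 hz₀)
  obtain ⟨d1, d2, d3, d4⟩ := diff_mem (hT hzT) (hT hz₀T)
  refine ⟨d1, d2, ?_, d4⟩
  -- on `V₀`
  have hV : ∀ v : ↥(U ⊓ D), (v : 𝔾) ∈ V₀ → (z - z₀) v ∈ M' := by
    intro v hv
    refine hsep _ (d3 v) fun g => ?_
    obtain ⟨w, hw⟩ := QuotientGroup.mk_out_eq_mul (V₀.subgroupOf U) g
    set q : U := (g : U ⧸ V₀.subgroupOf U).out with hq
    have h1 : ρ g ((z - z₀) v) = ρ q ((z - z₀) v) := by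
      rw [hw, map_mul, Module.End.mul_apply]
      congr 1
      exact (htriv w w.2 _).symm
    rw [h1]
    have hv' : (q : 𝔾) * v * (q : 𝔾)⁻¹ ∈ V₀ := hVn.conj_mem v hv q
    have hvD : (q : 𝔾) * v * (q : 𝔾)⁻¹ ∈ D := hD.conj_mem v v.2.2 q
    have hvL : (q : 𝔾) * v * (q : 𝔾)⁻¹ ∈ stabF ρ hM lam :=
      ⟨hVU hv', fun a _ => by rw [htriv _ hv']⟩
    have h2 : f₁ z g ⟨_, hvL, hvD⟩ = f₁ z₀ g ⟨_, hvL, hvD⟩ := by
      rw [hf z hz z₀ hz₀]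
    have h3 : cj hD q ⟨(q : 𝔾) * v * (q : 𝔾)⁻¹, hVU hv', hvD⟩ = v := by
      apply Subtype.ext
      show (q : 𝔾)⁻¹ * ((q : 𝔾) * v * (q : 𝔾)⁻¹) * q = v
      group
    have h4 : lam (ρ q (z (cj hD q ⟨(q : 𝔾) * v * (q : 𝔾)⁻¹, hVU hv', hvD⟩))) =
        lam (ρ q (z₀ (cj hD q ⟨(q : 𝔾) * v * (q : 𝔾)⁻¹, hVU hv', hvD⟩))) := h2
    rw [h3] at h4
    rw [Pi.sub_apply, map_sub, map_sub, h4, sub_self]
  intro g
  obtain ⟨w, hw⟩ := QuotientGroup.mk_out_eq_mul (V₀.subgroupOf (U ⊓ D)) g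
  set q : ↥(U ⊓ D) := (g : ↥(U ⊓ D) ⧸ V₀.subgroupOf (U ⊓ D)).out with hq
  have h1 : (z - z₀) q = 0 := by
    have h2 : f₂ z g = f₂ z₀ g := by
      rw [hT2 z hzT z₀ hz₀T]
    rw [Pi.sub_apply]
    exact sub_eq_zero.2 h2
  have h2 : g = q * (w : ↥(U ⊓ D))⁻¹ := by
    rw [hw, mul_inv_cancel_right]
  have h3 : (((w : ↥(U ⊓ D))⁻¹ : ↥(U ⊓ D)) : 𝔾) ∈ V₀ := V₀.inv_mem w.2
  rw [h2, d1, h1, zero_add]
  exact hM' _ _ (hV _ h3)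

theorem weak_bot {I : Ω → Subgroup 𝔾} {D V₀ : Subgroup 𝔾} {ρ : Representation (ZMod p) U A} :
    (Weak I ρ D V₀ ⊥).encard ≤ ((1 : ℕ) : ℕ∞) := by
  refine encard_le fun T hT => Finset.card_le_one.2 fun z hz z' hz' => ?_
  have h1 := (hT (Finset.mem_coe.2 hz)).2.2.1
  have h2 := (hT (Finset.mem_coe.2 hz')).2.2.1
  funext g
  rw [(Submodule.mem_bot _).1 (h1 g), (Submodule.mem_bot _).1 (h2 g)]

end Pool.Agent.U152.FS
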