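import Pool.Agent.U152.FS.Loc
import Pool.Agent.Results.MP_a4986b_nt.RealOrCM

/-!
# The reduction to fields with a real place and to CM fields, for the class groups modulo primes in `S`
-/

set_option autoImplicit false

namespace Pool.Agent.U152.FS

open Subgroup Module IntermediateField Pool.Agent.Q60.MU Pool.Agent.W5h77.MB Pool.Agent.U152.MU
open Pool.Agent.Results.MP_a4986b_nt.RealOrCM (HasRealPlace IsCM isCM_of_minus exists_galois)
open scoped ComplexConjugate

theorem muS_mono {p : ℕ} {I J : ValuationSubring Qb → Subgroup Gal(Qb/ℚ)} (h : ∀ w, I w ≤ J w)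
    {𝓡 : Set (IntermediateField ℚ Qb)} {U : Subgroup Gal(Qb/ℚ)} (hU : MuS p I 𝓡 U) : MuS p J 𝓡 U := by
  obtain ⟨C, hC⟩ := hU
  refine ⟨C, fun R hR W h1 h2 h3 h4 => hC R hR W h1 h2 h3 ?_⟩
  rintro x (hx | ⟨hx, w, hw⟩)
  · exact h4 (Or.inl hx)
  · exact h4 (Or.inr ⟨hx, w, h w hw⟩)

theorem all_fields {p : ℕ} [hp : Fact p.Prime] (hp2 : p ≠ 2) {S : Set ℕ} (hS : Primes S)
    (h : ∀ F : IntermediateField ℚ Qb, FiniteDimensional ℚ F →
      (HasRealPlace F ∨ (IsCM F ∧ ¬ p ∣ finrank ℚ F)) → MuS p (loc S) (Layers p) F.fixingSubgroup)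
    (F : IntermediateField ℚ Qb) [FiniteDimensional ℚ F] :
    MuS p (loc S) (Layers p) F.fixingSubgroup := by
  obtain ⟨K, hFK, hK, hKg⟩ := exists_galois F
  obtain ⟨ι⟩ := exists_iota
  obtain ⟨c, hc, hcc⟩ := exists_conj ι
  have hKn : K.fixingSubgroup.Normal := (InfiniteGalois.normal_iff_isGalois K).2 hKg
  have hKo := K.fixingSubgroup_isOpen
  have hKf := index_ne_zero' K
  have hfd : ∀ E : IntermediateField ℚ Qb, E ≤ K → FiniteDimensional ℚ E := fun E hE =>
    Submodule.finiteDimensional_of_le (S₁ := Subalgebra.toSubmodule E.toSubalgebra)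
      (S₂ := Subalgebra.toSubmodule K.toSubalgebra) hE
  refine MuS.of_le (lay_layers hp.out) (fixingSubgroup_le hFK) hKo hKf ?_
  refine inv_detS (p := p) (loc_conj S) (finRam_loc hS) (lay_layers hp.out) hKn hKo hKf (c := c)
    (by rw [hcc]; exact one_mem _) ?_ ?_
  · rintro Q _ _ _ τ hτ - ⟨v, hv, hv1⟩
    have hE := hfd (K ⊓ realSub ι) inf_le_left
    have h1 := h (K ⊓ realSub ι) hE (Or.inl ⟨ι, fun x hx =>
      mem_realSub.1 ((IntermediateField.mem_inf).1 hx).2⟩)
    rw [fix_real hc] at h1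
    exact ⟨_, ⟨le_sup_left, h1⟩, v, hv, zpowers_le_stab hτ hv1⟩
  · intro Q _ _ _ τ hτ hs hm
    have hnt : Nontrivial Q := hs.1
    obtain ⟨v, hv, P, hP, hPp⟩ := exists_vec_P hKn hKf τ hτ
    have hle : K.fixingSubgroup ≤ stab τ v := fun g hg => hτ g hg v
    have hso : IsOpen (stab τ v : Set Gal(Qb/ℚ)) := Subgroup.isOpen_mono hle hKo
    have hsf : (fixedField (stab τ v)).fixingSubgroup = stab τ v := fix_fixed hso
    have hEK : fixedField (stab τ v) ≤ K := by
      have h3 := fixedField_antitone hle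
      rwa [InfiniteGalois.fixedField_fixingSubgroup K] at h3
    have hE := hfd _ hEK
    have h3 := h _ hE (Or.inr ⟨isCM_of_minus hp2 τ hKo hτ ι hc hm hv, by
      rw [finrank_eq_fixingSubgroup_index, hsf]
      exact fun h4 => hPp (h4.trans (Subgroup.index_dvd_of_le hP))⟩)
    rw [hsf] at h3
    exact ⟨stab τ v, ⟨hle, h3⟩, v, hv, le_rfl⟩

end Pool.Agent.U152.FS
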