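import Pool.Agent.U152.FS.Sub
import Pool.Agent.U152.FS.Real

/-!
# Fine Selmer groups with finite coefficients: reduction to class groups of fields with a real place and
of CM fields

Let `p` be an odd prime. By Nakayama's lemma and Poitou-Tate duality, Q1 for `T` and `L` means that the
orders of the fine Selmer groups of the finite module `A = Hom(T / π, μ_p)` over the layers of `L_∞ / L` are
bounded. Here we consider arbitrary finite `𝔽_p[G_K]`-modules `A` (also with `L = K`) and the continuous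
cocycles on `G_{K R}` (`R` a layer of the cyclotomic extension of `ℚ`) whose restrictions to the
decomposition groups above the finite set `S` of prime numbers and to all the inertia groups are
coboundaries. We prove:

1. Let `0 = M_0 ≤ M_1 ≤ … ≤ M_r = A` be submodules and let `λ_i` be functionals on `M_{i + 1}` such that
   `M_i` contains all the `a ∈ M_{i + 1}` with `λ_i (g a) = 0` for all `g` (for instance a composition
   series, and any `λ_i ≠ 0` which vanishes on `M_i`). Let `K_i` be the field fixed by the stabilizer of `λ_i` in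
   `G_K`. If the orders of the class groups modulo `p` and modulo the classes of the primes above `S` are
   bounded in the layers of the cyclotomic extensions of all `K_i`, then the fine Selmer groups of `A` are
   bounded.
2. If `K` is totally real, this is the case for suitable `λ_i` such that each `K_i` has a real place or is a CM field
   of degree prime to `p` over `K`. Always `[K_i : K] < |A|`.
3. The fine Selmer groups are bounded for all `K`, `A` and `S ∋ p` if and only if the class groups modulo `p` and the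
   primes above `p` are bounded in the cyclotomic extensions of the number fields with a real place and of the
   CM fields of degree prime to `p`.

Proof. (1) For a cocycle `z` with values in `M_{i + 1}` and `u ∈ G_K` the map `x ↦ λ_i (u z(u⁻¹ x u))` is a
homomorphism on the stabilizer of `λ_i` which vanishes on the local groups, apart from a bounded number of
places where it vanishes on subgroups of bounded index. If all these homomorphisms and the values at
representatives of `G_K / V₀` are given, where `V₀` acts trivially, then `z` is determined up to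
cocycles with values in `M_i`. (2) A complex conjugation fixes a functional `λ ≠ 0` on `M_{i + 1} / M_i`, or all
complex conjugations act by `- 1`; in the second case we take `λ` fixed by a Sylow subgroup. (3) Simple
modules of the Galois group of a normal closure, as for the full class groups in
`MP_a4986b_nt.RealOrCM`.
-/

set_option autoImplicit false

namespace Pool.Agent.U152.FS

open Subgroup Module IntermediateField Pool.Agent.Q60.MU Pool.Agent.W5h77.MB Pool.Agent.U152.MU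
open Pool.Agent.Results.MP_a4986b_nt.RealOrCM (HasRealPlace IsCM)
open scoped ComplexConjugate

variable {p : ℕ} {A : Type} [AddCommGroup A] [Module (ZMod p) A] {K : IntermediateField ℚ Qb}

/-- The action of `G_K` on `A` is continuous: `G_K ∩ G_N` acts trivially for some number field `N`. -/
def Cont (ρ : Representation (ZMod p) K.fixingSubgroup A) : Prop :=
  ∃ N : IntermediateField ℚ Qb, FiniteDimensional ℚ N ∧
    ∀ g : K.fixingSubgroup, (g : Gal(Qb/ℚ)) ∈ N.fixingSubgroup → ρ g = 1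

/-- The module is unramified outside `S`. -/
def Unramified (S : Set ℕ) (ρ : Representation (ZMod p) K.fixingSubgroup A) : Prop :=
  ∀ w : ValuationSubring Qb, (¬ ∃ ℓ ∈ S, (ℓ : Qb) ∈ w.nonunits) →
    ∀ g : K.fixingSubgroup, (g : Gal(Qb/ℚ)) ∈ inertia w → ρ g = 1

/-- The fine Selmer cocycles for `A` over `K R`: the continuous cocycles `G_{K R} → A` (those which
vanish on `G_{K R} ∩ G_N` for some number field `N`) whose restrictions to the decomposition groups of the
primes above `S` and to the inertia groups of the other primes are coboundaries. -/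
def Fine (S : Set ℕ) (ρ : Representation (ZMod p) K.fixingSubgroup A) (R : IntermediateField ℚ Qb) :
    Set (↥(K.fixingSubgroup ⊓ R.fixingSubgroup) → A) :=
  {z | (∀ g h, z (g * h) = z g + ρ ⟨g, g.2.1⟩ (z h)) ∧
    (∃ N : IntermediateField ℚ Qb, FiniteDimensional ℚ N ∧
      ∀ g : ↥(K.fixingSubgroup ⊓ R.fixingSubgroup), (g : Gal(Qb/ℚ)) ∈ N.fixingSubgroup → z g = 0) ∧
    ∀ w, ∃ a : A, ∀ g : ↥(K.fixingSubgroup ⊓ R.fixingSubgroup), (g : Gal(Qb/ℚ)) ∈ loc S w →
      z g = ρ ⟨g, g.2.1⟩ a - a}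

/-- The numbers of the fine Selmer cocycles over the layers of the cyclotomic `ℤ_p`-extension of `K` are
bounded. (The classes of the cocycles form the fine Selmer group, and there are at most `|A|`
coboundaries.) -/
def FineBounded (S : Set ℕ) (ρ : Representation (ZMod p) K.fixingSubgroup A) : Prop :=
  ∃ C : ℕ, ∀ (m : ℕ) (R : IntermediateField ℚ Qb), IsLayer p m R → (Fine S ρ R).encard ≤ (C : ℕ∞)

/-- The continuous homomorphisms `G_{F R} → ℤ/p` which are trivial on the decomposition groups of the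
primes above `S` and on the inertia groups of the other primes. By class field theory they form the dual of
`Cl / p`, `Cl` being the class group of `F R` modulo the classes of the primes above `S`. -/
def Unr (p : ℕ) (S : Set ℕ) (F R : IntermediateField ℚ Qb) :
    Set (↥(F.fixingSubgroup ⊓ R.fixingSubgroup) → ZMod p) :=
  {h | (∀ x y, h (x * y) = h x + h y) ∧
    (∃ N : IntermediateField ℚ Qb, FiniteDimensional ℚ N ∧
      ∀ x : ↥(F.fixingSubgroup ⊓ R.fixingSubgroup), (x : Gal(Qb/ℚ)) ∈ N.fixingSubgroup → h x = 0) ∧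
    ∀ w, ∀ x : ↥(F.fixingSubgroup ⊓ R.fixingSubgroup), (x : Gal(Qb/ℚ)) ∈ loc S w → h x = 0}

/-- Their numbers are bounded in the cyclotomic `ℤ_p`-extension of `F`. -/
def ClassBounded (p : ℕ) (S : Set ℕ) (F : IntermediateField ℚ Qb) : Prop :=
  ∃ C : ℕ, ∀ (m : ℕ) (R : IntermediateField ℚ Qb), IsLayer p m R → (Unr p S F R).encard ≤ (C : ℕ∞)

/-- The field `K(λ)` of the functional `λ` on the submodule `M`: the fixed field of the group of all
`g ∈ G_K` with `λ (g a) = λ a` for all `a ∈ M`. -/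
noncomputable def FieldOf (ρ : Representation (ZMod p) K.fixingSubgroup A)
    {M : Submodule (ZMod p) A} (hM : Inv ρ M) (lam : A →ₗ[ZMod p] ZMod p) :
    IntermediateField ℚ Qb := fixedField (stabF ρ hM lam)

theorem unr_eq (S : Set ℕ) (F R : IntermediateField ℚ Qb) :
    Unr p S F R = JHom p (loc S) (F.fixingSubgroup ⊓ R.fixingSubgroup) ⊤ := by
  ext h
  constructor
  · rintro ⟨h1, ⟨N, hN, h2⟩, h3⟩
    exact ⟨h1, ⟨N.fixingSubgroup, big_fix N, h2⟩, fun w x hx _ => h3 w x hx⟩
  · rintro ⟨h1, ⟨N, hN, h2⟩, h3⟩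
    obtain ⟨M, hM, hMN⟩ := big_iff.1 hN
    exact ⟨h1, ⟨M, hM, fun x hx => h2 x (hMN hx)⟩, fun w x hx => h3 w x hx (Subgroup.mem_top _)⟩

theorem class_iff (S : Set ℕ) (F : IntermediateField ℚ Qb) :
    ClassBounded p S F ↔ HomBdd p S F.fixingSubgroup := by
  constructor
  · rintro ⟨C, hC⟩
    refine ⟨C, ?_⟩
    rintro R ⟨m, hR⟩
    rw [← unr_eq]
    exact hC m R hR
  · rintro ⟨C, hC⟩
    refine ⟨C, fun m R hR => ?_⟩
    rw [unr_eq]
    exact hC R ⟨m, hR⟩

theorem exists_V [FiniteDimensional ℚ K] {ρ : Representation (ZMod p) K.fixingSubgroup A}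
    (hρ : Cont ρ) : ∃ V₀ : Subgroup Gal(Qb/ℚ), V₀.Normal ∧ Big V₀ ∧ ∃ hVU : V₀ ≤ K.fixingSubgroup,
      ∀ (g : Gal(Qb/ℚ)) (h : g ∈ V₀) (a : A), ρ ⟨g, hVU h⟩ a = a := by
  obtain ⟨N, hN, h1⟩ := hρ
  refine ⟨(K.fixingSubgroup ⊓ N.fixingSubgroup).normalCore, Subgroup.normalCore_normal _,
    ((big_fix K).inf (big_fix N)).core, (Subgroup.normalCore_le _).trans inf_le_left, fun g h a => ?_⟩
  rw [h1 ⟨g, _⟩ (Subgroup.normalCore_le _ h).2]
  rfl

theorem bounded_of {S : Set ℕ} {ρ : Representation (ZMod p) K.fixingSubgroup A}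
    {V₀ : Subgroup Gal(Qb/ℚ)} {hVU : V₀ ≤ K.fixingSubgroup}
    (htriv : ∀ (g : Gal(Qb/ℚ)) (h : g ∈ V₀) (a : A), ρ ⟨g, hVU h⟩ a = a)
    (h : WBdd S ρ V₀ ⊤) : FineBounded S ρ := by
  obtain ⟨C, hC⟩ := h
  refine ⟨C, fun m R hR => le_trans (Set.encard_le_encard ?_) (hC R ⟨m, hR⟩)⟩
  rintro z ⟨h1, ⟨N, hN, h2⟩, h3⟩
  refine ⟨h1, ⟨N.fixingSubgroup, big_fix N, h2⟩, fun _ => Submodule.mem_top, fun w g hg hgV => ?_⟩
  obtain ⟨a, ha⟩ := h3 w
  rw [ha g hg, htriv g hgV, sub_self]

theorem hom_of_class [hp : Fact p.Prime] {S : Set ℕ} {ρ : Representation (ZMod p) K.fixingSubgroup A}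
    {V₀ : Subgroup Gal(Qb/ℚ)} (hV : Big V₀) {hVU : V₀ ≤ K.fixingSubgroup}
    (htriv : ∀ (g : Gal(Qb/ℚ)) (h : g ∈ V₀) (a : A), ρ ⟨g, hVU h⟩ a = a)
    {M : Submodule (ZMod p) A} (hM : Inv ρ M) (lam : A →ₗ[ZMod p] ZMod p)
    (h : ClassBounded p S (FieldOf ρ hM lam)) : HomBdd p S (stabF ρ hM lam) := by
  rw [class_iff, FieldOf, fix_fixed] at h
  · exact h
  · exact (hV.mono (M := stabF ρ hM lam) fun g hg => ⟨hVU hg, fun a _ => by rw [htriv g hg]⟩).1

/-- The first part. -/
theorem part_one [hp : Fact p.Prime] [Finite A] [FiniteDimensional ℚ K]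
    {ρ : Representation (ZMod p) K.fixingSubgroup A} (hρ : Cont ρ) {S : Set ℕ} (hS : Primes S)
    (r : ℕ) (M : ℕ → Submodule (ZMod p) A) (hM : ∀ i, Inv ρ (M i))
    (lam : ℕ → (A →ₗ[ZMod p] ZMod p)) (h0 : M 0 = ⊥) (hr : M r = ⊤)
    (h : ∀ i < r, (∀ a ∈ M (i + 1), (∀ g, lam i (ρ g a) = 0) → a ∈ M i) ∧
      ClassBounded p S (FieldOf ρ (hM (i + 1)) (lam i))) : FineBounded S ρ := by
  obtain ⟨V₀, hVn, hV, hVU, htriv⟩ := exists_V hρ
  refine bounded_of htriv ?_
  rw [← hr]
  have key : ∀ i ≤ r, WBdd S ρ V₀ (M i) := by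
    intro i
    induction i with
    | zero =>
      intro _
      rw [h0]
      exact ⟨1, fun R _ => weak_bot⟩
    | succ i ih =>
      intro hi
      obtain ⟨h1, h2⟩ := h i hi
      exact wstep hS hVn hV hVU htriv (hM i) (hM (i + 1)) (lam i) h1
        (hom_of_class hV htriv (hM (i + 1)) (lam i) h2) (ih (by omega))
  exact key r le_rfl

/-- A complex conjugation. -/
theorem conj_mem (hK : ∀ φ : Qb →+* ℂ, ∀ x ∈ K, conj (φ x) = φ x) {φ : Qb →+* ℂ} {c : Gal(Qb/ℚ)}
    (hc : ∀ x, φ (c x) = conj (φ x)) : c ∈ K.fixingSubgroup := by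
  rw [IntermediateField.mem_fixingSubgroup_iff]
  intro x hx
  apply φ.injective
  rw [hc, hK φ x hx]

theorem two_ne_zmod {p : ℕ} [hp : Fact p.Prime] (hp2 : p ≠ 2) {x : ZMod p} (h : x = -x) : x = 0 :=
  two_ne hp2 h.symm

/-- The choice of the functional. -/
theorem choose_functional [hp : Fact p.Prime] (hp2 : p ≠ 2) [Finite A] [FiniteDimensional ℚ K]
    (hK : ∀ φ : Qb →+* ℂ, ∀ x ∈ K, conj (φ x) = φ x)
    {ρ : Representation (ZMod p) K.fixingSubgroup A}
    {V₀ : Subgroup Gal(Qb/ℚ)} (hVn : V₀.Normal) (hV : Big V₀) {hVU : V₀ ≤ K.fixingSubgroup}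
    (htriv : ∀ (g : Gal(Qb/ℚ)) (h : g ∈ V₀) (a : A), ρ ⟨g, hVU h⟩ a = a)
    {M' M : Submodule (ZMod p) A} (hM' : Inv ρ M') (hM : Inv ρ M) (hlt : M' < M) :
    ∃ lam : A →ₗ[ZMod p] ZMod p, ((∀ a ∈ M', lam a = 0) ∧ ∃ a ∈ M, lam a ≠ 0) ∧
      (HasRealPlace (FieldOf ρ hM lam) ∨
        (IsCM (FieldOf ρ hM lam) ∧ ¬ p ∣ (stabF ρ hM lam).relIndex K.fixingSubgroup)) := by
  have hfix : ∀ lam : A →ₗ[ZMod p] ZMod p,
      (FieldOf ρ hM lam).fixingSubgroup = stabF ρ hM lam := fun lam =>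
    fix_fixed (hV.mono (M := stabF ρ hM lam) fun g hg => ⟨hVU hg, fun a _ => by rw [htriv g hg]⟩).1
  by_cases hex : ∃ (φ : Qb →+* ℂ) (c : Gal(Qb/ℚ)) (hc : ∀ x, φ (c x) = conj (φ x)),
      ∃ lam : A →ₗ[ZMod p] ZMod p, ((∀ a ∈ M', lam a = 0) ∧ ∃ a ∈ M, lam a ≠ 0) ∧
        ∀ a ∈ M, lam (ρ ⟨c, conj_mem hK hc⟩ a) = lam a
  · obtain ⟨φ, c, hc, lam, h1, h2⟩ := hex
    refine ⟨lam, h1, Or.inl ⟨φ, fun x hx => ?_⟩⟩
    have h3 : c ∈ (FieldOf ρ hM lam).fixingSubgroup := by
      rw [hfix]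
      exact ⟨conj_mem hK hc, h2⟩
    rw [IntermediateField.mem_fixingSubgroup_iff] at h3
    rw [← hc, h3 x hx]
  · obtain ⟨lam, h1, h2⟩ := exists_sylow hVn hV.2 hVU htriv hM' hM hlt
    refine ⟨lam, h1, Or.inr ⟨?_, h2⟩⟩
    -- all complex conjugations act as `- 1`
    have hall : ∀ φ : Qb →+* ℂ, ∃ (d : Gal(Qb/ℚ)) (hd : ∀ x, φ (d x) = conj (φ x)), d * d = 1 ∧
        ∀ a ∈ M, lam (ρ ⟨d, conj_mem hK hd⟩ a) = - lam a := by
      intro φ
      obtain ⟨d, hd, hdd⟩ := exists_conj φ
      refine ⟨d, hd, hdd, inv_functional (M := M) (c := ⟨d, conj_mem hK hd⟩) (Subtype.ext hdd) hM'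
        (fun h3 => ?_) h1.1⟩
      obtain ⟨mu, h4, h5⟩ := h3
      exact hex ⟨φ, d, hd, mu, h4, h5⟩
    refine ⟨?_, fun x hx => ?_⟩
    · rintro ⟨φ, hφ⟩
      obtain ⟨d, hd, -, hd1⟩ := hall φ
      have h3 : d ∈ (FieldOf ρ hM lam).fixingSubgroup := by
        rw [IntermediateField.mem_fixingSubgroup_iff]
        intro x hx
        apply φ.injective
        rw [hd, hφ x hx]
      rw [hfix] at h3
      obtain ⟨h4, h5⟩ := h3
      obtain ⟨a, ha, hne⟩ := h1.2
      apply hne
      apply two_ne_zmod hp2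
      rw [← hd1 a ha]
      exact (h5 a ha).symm
    · obtain ⟨ι⟩ := exists_iota
      obtain ⟨c, hc, hcc, hc1⟩ := hall ι
      have hcinv : c⁻¹ = c := inv_eq_of_mul_eq_one_right hcc
      refine ⟨c x, ?_, fun φ => ?_⟩
      · have hx' : x ∈ fixedField (stabF ρ hM lam) := hx
        show c x ∈ fixedField (stabF ρ hM lam)
        rw [mem_fixedField_iff] at hx' ⊢
        rintro s ⟨hs, hs1⟩
        have h1 : c * s * c ∈ stabF ρ hM lam := by
          refine ⟨K.fixingSubgroup.mul_mem (K.fixingSubgroup.mul_mem (conj_mem hK hc) hs)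
            (conj_mem hK hc), fun a ha => ?_⟩
          have h3 : ρ ⟨c * s * c, K.fixingSubgroup.mul_mem (K.fixingSubgroup.mul_mem (conj_mem hK hc) hs)
              (conj_mem hK hc)⟩ a = ρ ⟨c, conj_mem hK hc⟩ (ρ ⟨s, hs⟩ (ρ ⟨c, conj_mem hK hc⟩ a)) := by
            rw [← Module.End.mul_apply, ← Module.End.mul_apply, ← map_mul, ← map_mul]
            rfl
          rw [h3, hc1 _ (hM _ _ (hM _ a ha)), hs1 _ (hM _ a ha), hc1 a ha, neg_neg]
        have h2 := hx' _ h1
        have h3 : s (c x) = c ((c * s * c) x) := by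
          rw [← AlgEquiv.mul_apply, ← AlgEquiv.mul_apply]
          congr 1
          rw [← mul_assoc, ← mul_assoc, hcc, one_mul]
        rw [h3, h2]
      · obtain ⟨d, hd, hdd, hd1⟩ := hall φ
        have hdinv : d⁻¹ = d := inv_eq_of_mul_eq_one_right hdd
        rw [← hd]
        congr 1
        have hx' : x ∈ fixedField (stabF ρ hM lam) := hx
        rw [mem_fixedField_iff] at hx'
        have h1 : d * c ∈ stabF ρ hM lam := by
          refine ⟨K.fixingSubgroup.mul_mem (conj_mem hK hd) (conj_mem hK hc), fun a ha => ?_⟩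
          have h3 : ρ ⟨d * c, K.fixingSubgroup.mul_mem (conj_mem hK hd) (conj_mem hK hc)⟩ a =
              ρ ⟨d, conj_mem hK hd⟩ (ρ ⟨c, conj_mem hK hc⟩ a) := by
            rw [← Module.End.mul_apply, ← map_mul]
            rfl
          rw [h3, hd1 _ (hM _ a ha), hc1 a ha, neg_neg]
        have h2 := hx' _ h1
        have h3 : c x = d ((d * c) x) := by
          rw [← AlgEquiv.mul_apply, ← mul_assoc, hdd, one_mul]
        rw [h3, h2]

theorem le_fieldOf {ρ : Representation (ZMod p) K.fixingSubgroup A} {M : Submodule (ZMod p) A}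
    (hM : Inv ρ M) (lam : A →ₗ[ZMod p] ZMod p) : K ≤ FieldOf ρ hM lam := by
  refine (le_iff_le _ _).2 ?_
  rintro g ⟨h, -⟩
  exact h

/-- The second part. -/
theorem part_two [hp : Fact p.Prime] (hp2 : p ≠ 2) [Finite A] [FiniteDimensional ℚ K]
    (hK : ∀ φ : Qb →+* ℂ, ∀ x ∈ K, conj (φ x) = φ x)
    {ρ : Representation (ZMod p) K.fixingSubgroup A} (hρ : Cont ρ) :
    ∃ 𝓕 : Finset (IntermediateField ℚ Qb), 𝓕.card ≤ finrank (ZMod p) A ∧
      (∀ F ∈ 𝓕, K ≤ F ∧ ∃ n < Nat.card A, finrank ℚ F = n * finrank ℚ K ∧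
        (HasRealPlace F ∨ (IsCM F ∧ ¬ p ∣ n))) ∧
      ∀ S : Set ℕ, Primes S → (∀ F ∈ 𝓕, ClassBounded p S F) → FineBounded S ρ := by
  classical
  have hfA : Module.Finite (ZMod p) A := Module.Finite.of_finite
  obtain ⟨V₀, hVn, hV, hVU, htriv⟩ := exists_V hρ
  have key : ∀ (d : ℕ) (M : Submodule (ZMod p) A), Inv ρ M → finrank (ZMod p) M = d →
      ∃ 𝓕 : Finset (IntermediateField ℚ Qb), 𝓕.card ≤ d ∧
      (∀ F ∈ 𝓕, K ≤ F ∧ ∃ n < Nat.card A, finrank ℚ F = n * finrank ℚ K ∧
        (HasRealPlace F ∨ (IsCM F ∧ ¬ p ∣ n))) ∧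
      ∀ S : Set ℕ, Primes S → (∀ F ∈ 𝓕, ClassBounded p S F) → WBdd S ρ V₀ M := by
    intro d
    induction d using Nat.strong_induction_on with
    | _ d ih =>
      intro M hM hd
      by_cases h0 : M = ⊥
      · refine ⟨∅, by simp, by simp, fun S _ _ => ?_⟩
        rw [h0]
        exact ⟨1, fun R _ => weak_bot⟩
      obtain ⟨M', hlt, hM', hmax⟩ := exists_max (ρ := ρ) h0
      have hfr : finrank (ZMod p) M' < d := by
        rw [← hd]
        exact Submodule.finrank_lt_finrank_of_lt hlt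
      obtain ⟨𝓕, h1, h2, h3⟩ := ih _ hfr M' hM' rfl
      obtain ⟨lam, h4, h5⟩ := choose_functional hp2 hK hVn hV htriv hM' hM hlt
      have hfix : (FieldOf ρ hM lam).fixingSubgroup = stabF ρ hM lam :=
        fix_fixed (hV.mono (M := stabF ρ hM lam) fun g hg => ⟨hVU hg, fun a _ => by rw [htriv g hg]⟩).1
      refine ⟨insert (FieldOf ρ hM lam) 𝓕, (Finset.card_insert_le _ _).trans (by omega), ?_, ?_⟩
      · intro F hF
        rcases Finset.mem_insert.1 hF with rfl | hF
        · refine ⟨le_fieldOf hM lam, (stabF ρ hM lam).relIndex K.fixingSubgroup, index_lt hM h4.2, ?_, h5⟩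
          rw [finrank_eq_fixingSubgroup_index, finrank_eq_fixingSubgroup_index, hfix,
            relIndex_mul_index]
          rintro g ⟨h, -⟩
          exact h
        · exact h2 F hF
      · intro S hS hcl
        exact wstep hS hVn hV hVU htriv hM' hM lam (sep_of_max hM hlt hM' hmax h4.1 h4.2)
          (hom_of_class hV htriv hM lam (hcl _ (Finset.mem_insert_self _ _)))
          (h3 S hS fun F hF => hcl F (Finset.mem_insert_of_mem hF))
  obtain ⟨𝓕, h1, h2, h3⟩ := key _ ⊤ (fun _ _ _ => Submodule.mem_top) rfl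
  rw [finrank_top] at h1
  exact ⟨𝓕, h1, h2, fun S hS h => bounded_of htriv (h3 S hS h)⟩

/-- The third part. -/
theorem part_three [hp : Fact p.Prime] (hp2 : p ≠ 2)
    (h : ∀ F : IntermediateField ℚ Qb, FiniteDimensional ℚ F →
      (HasRealPlace F ∨ (IsCM F ∧ ¬ p ∣ finrank ℚ F)) → ClassBounded p {p} F)
    [Finite A] [FiniteDimensional ℚ K]
    {ρ : Representation (ZMod p) K.fixingSubgroup A} (hρ : Cont ρ) {S : Set ℕ} (hS : Primes S)
    (hpS : p ∈ S) : FineBounded S ρ := by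
  classical
  have hfA : Module.Finite (ZMod p) A := Module.Finite.of_finite
  have hSp : Primes {p} := ⟨Set.finite_singleton p, fun ℓ hℓ => by
    rw [Set.mem_singleton_iff.1 hℓ]
    exact hp.out⟩
  obtain ⟨V₀, hVn, hV, hVU, htriv⟩ := exists_V hρ
  have hall : ∀ L : Subgroup Gal(Qb/ℚ), Big L → HomBdd p S L := by
    intro L hL
    rw [homBdd_iff hL]
    refine muS_mono (loc_mono (Set.singleton_subset_iff.2 hpS)) ?_
    have hfd := finite_fixed hL.1 hL.2
    rw [← fix_fixed hL.1]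
    refine all_fields hp2 hSp (fun F hF hF1 => ?_) _
    rw [← homBdd_iff (big_fix F), ← class_iff]
    exact h F hF hF1
  have key : ∀ (d : ℕ) (M : Submodule (ZMod p) A), Inv ρ M → finrank (ZMod p) M = d →
      WBdd S ρ V₀ M := by
    intro d
    induction d using Nat.strong_induction_on with
    | _ d ih =>
      intro M hM hd
      by_cases h0 : M = ⊥
      · rw [h0]
        exact ⟨1, fun R _ => weak_bot⟩
      obtain ⟨M', hlt, hM', hmax⟩ := exists_max (ρ := ρ) h0
      have hfr : finrank (ZMod p) M' < d := by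
        rw [← hd]
        exact Submodule.finrank_lt_finrank_of_lt hlt
      obtain ⟨lam, h4⟩ := exists_functional hlt
      exact wstep hS hVn hV hVU htriv hM' hM lam (sep_of_max hM hlt hM' hmax h4.1 h4.2)
        (hall _ (hV.mono fun g hg => ⟨hVU hg, fun a _ => by rw [htriv g hg]⟩)) (ih _ hfr M' hM' rfl)
  exact bounded_of htriv (key _ ⊤ (fun _ _ _ => Submodule.mem_top) rfl)

/-- **Fine Selmer groups of finite modules and class groups.** -/
theorem main (p : ℕ) [Fact p.Prime] (hp2 : p ≠ 2) :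
    -- (1) one module, any `K`
    (∀ (K : IntermediateField ℚ Qb) (A : Type) [AddCommGroup A] [Module (ZMod p) A] [Finite A]
      (ρ : Representation (ZMod p) K.fixingSubgroup A) (S : Set ℕ), FiniteDimensional ℚ K → Cont ρ →
      Primes S → ∀ (r : ℕ) (M : ℕ → Submodule (ZMod p) A) (hM : ∀ i, Inv ρ (M i))
        (lam : ℕ → (A →ₗ[ZMod p] ZMod p)), M 0 = ⊥ → M r = ⊤ →
        (∀ i < r, (∀ a ∈ M (i + 1), (∀ g, lam i (ρ g a) = 0) → a ∈ M i) ∧
          ClassBounded p S (FieldOf ρ (hM (i + 1)) (lam i))) → FineBounded S ρ) ∧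
    -- (2) one module, `K` totally real
    (∀ (K : IntermediateField ℚ Qb) (A : Type) [AddCommGroup A] [Module (ZMod p) A] [Finite A]
      (ρ : Representation (ZMod p) K.fixingSubgroup A), FiniteDimensional ℚ K → Cont ρ →
      (∀ φ : Qb →+* ℂ, ∀ x ∈ K, conj (φ x) = φ x) →
      ∃ 𝓕 : Finset (IntermediateField ℚ Qb), 𝓕.card ≤ finrank (ZMod p) A ∧
        (∀ F ∈ 𝓕, K ≤ F ∧ ∃ n < Nat.card A, finrank ℚ F = n * finrank ℚ K ∧
          (HasRealPlace F ∨ (IsCM F ∧ ¬ p ∣ n))) ∧
        ∀ S : Set ℕ, Primes S → (∀ F ∈ 𝓕, ClassBounded p S F) → FineBounded S ρ) ∧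
    -- (3) all modules
    ((∀ (K : IntermediateField ℚ Qb) (A : Type) [AddCommGroup A] [Module (ZMod p) A] [Finite A]
        (ρ : Representation (ZMod p) K.fixingSubgroup A) (S : Set ℕ), FiniteDimensional ℚ K →
        Cont ρ → Primes S → p ∈ S → Unramified S ρ → FineBounded S ρ) ↔
      ∀ F : IntermediateField ℚ Qb, FiniteDimensional ℚ F →
        (HasRealPlace F ∨ (IsCM F ∧ ¬ p ∣ finrank ℚ F)) → ClassBounded p {p} F) := by
  refine ⟨?_, ?_, ?_, ?_⟩
  · intro K A _ _ _ ρ S hK hρ hS r M hM lam h0 hr h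
    exact part_one hρ hS r M hM lam h0 hr h
  · intro K A _ _ _ ρ hK hρ hr
    exact part_two hp2 hr hρ
  · intro h F hF _
    have hp : p.Prime := Fact.out
    obtain ⟨C, hC⟩ := h F (ZMod p) (1 : Representation (ZMod p) F.fixingSubgroup (ZMod p)) {p} hF
      ⟨⊥, inferInstance, fun _ _ => rfl⟩ ⟨Set.finite_singleton p, fun ℓ hℓ => by
        rw [Set.mem_singleton_iff.1 hℓ]
        exact hp⟩ (Set.mem_singleton p) (fun _ _ _ _ => rfl)
    refine ⟨C, fun m R hR => le_trans (Set.encard_le_encard ?_) (hC m R hR)⟩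
    rintro h ⟨h1, h2, h3⟩
    refine ⟨h1, h2, fun w => ⟨0, fun g hg => ?_⟩⟩
    rw [h3 w g hg, map_zero, sub_zero]
  · intro h K A _ _ _ ρ S hK hρ hS hpS _
    exact part_three hp2 h hρ hS hpS

end Pool.Agent.U152.FS
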