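import Pool.Agent.U152.FS.Loc

/-!
# Maximal submodules and functionals
-/

set_option autoImplicit false

namespace Pool.Agent.U152.FS

open Subgroup Module Pool.Agent.Q60.MU

variable {𝔾 : Type} [Group 𝔾] {p : ℕ} [hp : Fact p.Prime] {A : Type} [AddCommGroup A]
  [Module (ZMod p) A] {U : Subgroup 𝔾} {ρ : Representation (ZMod p) U A}

theorem exists_max [Finite A] {M : Submodule (ZMod p) A} (hne : M ≠ ⊥) :
    ∃ M' < M, Inv ρ M' ∧ ∀ N, Inv ρ N → M' ≤ N → N < M → N = M' := by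
  classical
  have hfin : Finite (Submodule (ZMod p) A) :=
    Finite.of_injective (fun M : Submodule (ZMod p) A => (M : Set A)) SetLike.coe_injective
  obtain ⟨m, hm⟩ := (Set.toFinite {N : Submodule (ZMod p) A | Inv ρ N ∧ N < M}).exists_maximal
    ⟨⊥, fun g x hx => by
      rw [(Submodule.mem_bot _).1 hx, map_zero]
      exact Submodule.zero_mem _, bot_lt_iff_ne_bot.2 hne⟩
  refine ⟨m, hm.1.2, hm.1.1, fun N h1 h2 h3 => ?_⟩
  exact le_antisymm (hm.2 ⟨h1, h3⟩ h2) h2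

theorem sep_of_max {M' M : Submodule (ZMod p) A} (hM : Inv ρ M) (hlt : M' < M) (hM' : Inv ρ M')
    (hmax : ∀ N, Inv ρ N → M' ≤ N → N < M → N = M') {lam : A →ₗ[ZMod p] ZMod p}
    (h0 : ∀ a ∈ M', lam a = 0) (h1 : ∃ a ∈ M, lam a ≠ 0) :
    ∀ a ∈ M, (∀ g, lam (ρ g a) = 0) → a ∈ M' := by
  let N : Submodule (ZMod p) A :=
    { carrier := {a | a ∈ M ∧ ∀ g, lam (ρ g a) = 0}
      add_mem' := fun {a b} ha hb => ⟨M.add_mem ha.1 hb.1, fun g => by
        rw [map_add, map_add, ha.2, hb.2, add_zero]⟩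
      zero_mem' := ⟨M.zero_mem, fun g => by rw [map_zero, map_zero]⟩
      smul_mem' := fun c a ha => ⟨M.smul_mem c ha.1, fun g => by
        rw [map_smul, map_smul, ha.2, smul_zero]⟩ }
  have hN : N = M' := by
    refine hmax N (fun g a ha => ⟨hM g a ha.1, fun g' => ?_⟩)
      (fun a ha => ⟨hlt.le ha, fun g => h0 _ (hM' g a ha)⟩) ?_
    · rw [← Module.End.mul_apply, ← map_mul]
      exact ha.2 _
    · refine lt_of_le_of_ne (fun a ha => ha.1) fun h => ?_
      obtain ⟨a, ha, ha1⟩ := h1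
      rw [← h] at ha
      have h2 := ha.2 1
      rw [map_one] at h2
      exact ha1 h2
  intro a ha hg
  rw [← hN]
  exact ⟨ha, hg⟩

theorem exists_functional {M' M : Submodule (ZMod p) A} (hlt : M' < M) :
    ∃ lam : A →ₗ[ZMod p] ZMod p, (∀ a ∈ M', lam a = 0) ∧ ∃ a ∈ M, lam a ≠ 0 := by
  obtain ⟨a, ha, ha'⟩ := SetLike.exists_of_lt hlt
  obtain ⟨f, hf, hf'⟩ := Submodule.exists_dual_map_eq_bot_of_notMem ha' inferInstance
  exact ⟨f, fun b hb => (Submodule.mem_bot _).1 (hf' ▸ Submodule.mem_map_of_mem hb), a, ha, hf⟩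

/-- An involution has a fixed functional or acts as `- 1`. -/
theorem inv_functional {M' M : Submodule (ZMod p) A} {c : U} (hcc : c * c = 1) (hM' : Inv ρ M')
    (h : ¬ ∃ lam : A →ₗ[ZMod p] ZMod p, ((∀ a ∈ M', lam a = 0) ∧ ∃ a ∈ M, lam a ≠ 0) ∧
      ∀ a ∈ M, lam (ρ c a) = lam a) {lam : A →ₗ[ZMod p] ZMod p} (h0 : ∀ a ∈ M', lam a = 0) :
    ∀ a ∈ M, lam (ρ c a) = - lam a := by
  intro a ha
  by_contra hne
  apply h
  refine ⟨lam + lam ∘ₗ (ρ c), ⟨fun b hb => ?_, a, ha, fun h1 => hne ?_⟩, fun b _ => ?_⟩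
  · rw [LinearMap.add_apply, LinearMap.comp_apply, h0 b hb, h0 _ (hM' c b hb), add_zero]
  · rw [LinearMap.add_apply, LinearMap.comp_apply] at h1
    exact (neg_eq_of_add_eq_zero_right h1).symm
  · rw [LinearMap.add_apply, LinearMap.add_apply, LinearMap.comp_apply, LinearMap.comp_apply,
      ← Module.End.mul_apply, ← map_mul, hcc, map_one, add_comm]
    rfl

/-- The index of the stabilizer. -/
theorem index_lt [Finite A] {M : Submodule (ZMod p) A} (hM : Inv ρ M) {lam : A →ₗ[ZMod p] ZMod p}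
    (h1 : ∃ a ∈ M, lam a ≠ 0) : (stabF ρ hM lam).relIndex U < Nat.card A := by
  classical
  have hfd : Module.Finite (ZMod p) A := Module.Finite.of_finite
  let f : (U ⧸ (stabF ρ hM lam).subgroupOf U) → Module.Dual (ZMod p) M :=
    fun q => (lam ∘ₗ ρ (q.out)⁻¹) ∘ₗ M.subtype
  have hinj : Function.Injective f := by
    intro q q' h
    rw [← q.out_eq, ← q'.out_eq]
    refine QuotientGroup.eq.2 ?_
    refine ⟨((q.out)⁻¹ * q'.out).2, fun a ha => ?_⟩
    have h2 := LinearMap.congr_fun h ⟨ρ q'.out a, hM _ a ha⟩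
    have h3 : lam (ρ (q.out)⁻¹ (ρ q'.out a)) = lam (ρ (q'.out)⁻¹ (ρ q'.out a)) := h2
    rw [← Module.End.mul_apply, ← Module.End.mul_apply, ← map_mul, ← map_mul, inv_mul_cancel,
      map_one] at h3
    exact h3
  have h0 : (0 : Module.Dual (ZMod p) M) ∉ Set.range f := by
    rintro ⟨q, hq⟩
    obtain ⟨a, ha, hne⟩ := h1
    have h2 := LinearMap.congr_fun hq ⟨ρ q.out a, hM _ a ha⟩
    have h3 : lam (ρ (q.out)⁻¹ (ρ q.out a)) = 0 := h2
    rw [← Module.End.mul_apply, ← map_mul, inv_mul_cancel, map_one] at h3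
    exact hne h3
  have hfin : Finite (Module.Dual (ZMod p) M) := Module.finite_of_finite (ZMod p)
  have h2 : Nat.card (U ⧸ (stabF ρ hM lam).subgroupOf U) < Nat.card (Module.Dual (ZMod p) M) := by
    have hfin' : Finite (U ⧸ (stabF ρ hM lam).subgroupOf U) := Finite.of_injective f hinj
    have := Fintype.ofFinite (U ⧸ (stabF ρ hM lam).subgroupOf U)
    have := Fintype.ofFinite (Module.Dual (ZMod p) M)
    rw [Nat.card_eq_fintype_card, Nat.card_eq_fintype_card]
    exact Fintype.card_lt_of_injective_of_notMem f hinj h0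
  have h3 : Nat.card (Module.Dual (ZMod p) M) = Nat.card M := by
    rw [Module.natCard_eq_pow_finrank (K := ZMod p) (V := M),
      Module.natCard_eq_pow_finrank (K := ZMod p) (V := Module.Dual (ZMod p) M),
      Subspace.dual_finrank_eq]
  rw [h3] at h2
  exact h2.trans_le (Nat.card_le_card_of_injective _ M.injective_subtype)

/-- A functional with a stabilizer of index prime to `p`. -/
theorem exists_sylow [Finite A] {V₀ : Subgroup 𝔾} (hVn : V₀.Normal) (hV : V₀.index ≠ 0) (hVU : V₀ ≤ U)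
    (htriv : ∀ (g : 𝔾) (h : g ∈ V₀) (a : A), ρ ⟨g, hVU h⟩ a = a)
    {M' M : Submodule (ZMod p) A} (hM' : Inv ρ M') (hM : Inv ρ M) (hlt : M' < M) :
    ∃ lam : A →ₗ[ZMod p] ZMod p, ((∀ a ∈ M', lam a = 0) ∧ ∃ a ∈ M, lam a ≠ 0) ∧
      ¬ p ∣ (stabF ρ hM lam).relIndex U := by
  classical
  have hfd : Module.Finite (ZMod p) A := Module.Finite.of_finite
  let D₁ : Submodule (ZMod p) (Module.Dual (ZMod p) A) := M'.dualAnnihilator
  let D₀ : Submodule (ZMod p) D₁ := (M.dualAnnihilator).comap D₁.subtype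
  have hann : ∀ {N : Submodule (ZMod p) A}, Inv ρ N → Stable ρ.dual N.dualAnnihilator := by
    intro N hN g f hf
    rw [Submodule.mem_dualAnnihilator] at hf ⊢
    intro a ha
    exact hf _ (hN _ a ha)
  have hD₁ : Stable ρ.dual D₁ := hann hM'
  have hD₀ : Stable (sub ρ.dual hD₁) D₀ := fun g f hf => hann hM g f.1 hf
  obtain ⟨mu, hmu0, a, ha, hmua⟩ := exists_functional hlt
  have hnt : Nontrivial (D₁ ⧸ D₀) := by
    refine Submodule.Quotient.nontrivial_iff.2 fun h => hmua ?_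
    have h1 : (⟨mu, (Submodule.mem_dualAnnihilator _).2 hmu0⟩ : D₁) ∈ D₀ := by
      rw [h]
      trivial
    exact (Submodule.mem_dualAnnihilator _).1 h1 a ha
  have hVF : V₀.FiniteIndex := ⟨hV⟩
  obtain ⟨v, hv, P, hP, hPp⟩ := exists_vec_P (𝔾 := U) (K := V₀.subgroupOf U) inferInstance
    (Subgroup.FiniteIndex.index_ne_zero (H := V₀.subgroupOf U)) (V := D₁ ⧸ D₀)
    (quo (sub ρ.dual hD₁) hD₀) (by
      intro g hg x
      obtain ⟨f, rfl⟩ := D₀.mkQ_surjective x
      rw [quo_mk]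
      congr 1
      apply Subtype.ext
      rw [sub_coe]
      apply LinearMap.ext
      intro b
      show (f : Module.Dual (ZMod p) A) (ρ g⁻¹ b) = (f : Module.Dual (ZMod p) A) b
      congr 1
      exact htriv _ (V₀.inv_mem hg) b)
  obtain ⟨f, rfl⟩ := D₀.mkQ_surjective v
  refine ⟨f.1, ⟨(Submodule.mem_dualAnnihilator _).1 f.2, ?_⟩, ?_⟩
  · by_contra h
    push Not at h
    exact hv ((Submodule.Quotient.mk_eq_zero D₀).2 ((Submodule.mem_dualAnnihilator _).2 h))
  · have h1 : P ≤ (stabF ρ hM f.1).subgroupOf U := by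
      intro g hg
      refine ⟨g.2, fun b hb => ?_⟩
      have h2 := hP (P.inv_mem hg)
      have h3 : D₀.mkQ (sub ρ.dual hD₁ g⁻¹ f) = D₀.mkQ f := h2
      have h4 := (Submodule.Quotient.eq D₀).1 h3
      have h5 := (Submodule.mem_dualAnnihilator _).1 h4 b hb
      have h6 : (f : Module.Dual (ZMod p) A) (ρ (g⁻¹)⁻¹ b) - (f : Module.Dual (ZMod p) A) b = 0 := h5
      rw [inv_inv] at h6
      exact sub_eq_zero.1 h6
    exact fun h2 => hPp (h2.trans (Subgroup.index_dvd_of_le h1))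

end Pool.Agent.U152.FS
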