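import Pool.Agent.U152.HN.Alg

/-!
Congruences for the stable ranks of Frobenius.
-/

namespace Pool.Agent.U152.FS

open Pool.Agent.U152.HN

universe u v

/-- The smooth connected projective varieties `X` over the algebraic numbers, the maximal ideals `s`
of the ring of algebraic integers, the dimension `d X` of the top cohomology of the structure sheaf,
the stable rank `st X s` of Frobenius on it for the reduction of `X` modulo `s` (`bad X` is a finite
set of prime numbers outside of which the reduction is defined and smooth, with top cohomology of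
dimension `d X`), an elliptic curve `E` with a point of order `r`, and the quotient
`cyc X = (X^r × E) / (ℤ/r)`; here `r` is an odd prime number. -/
structure FrobData (r : ℕ) where
  /-- varieties -/
  Var : Type u
  /-- maximal ideals -/
  Pt : Type v
  /-- the characteristic of the residue field -/
  char : Pt → ℕ
  /-- primes of bad reduction -/
  bad : Var → Finset ℕ
  /-- the dimension of the top cohomology of the structure sheaf -/
  d : Var → ℕ
  /-- the stable rank of Frobenius -/
  st : Var → Pt → ℕ
  st_le : ∀ X s, char s ∉ bad X → st X s ≤ d X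
  /-- an elliptic curve -/
  E : Var
  d_E : d E = 1
  /-- the quotient -/
  cyc : Var → Var
  d_cyc : ∀ X, (r : ℤ) * d (cyc X) = (d X : ℤ) ^ r + (r - 1) * d X
  st_cyc : ∀ X s, char s ≠ r → char s ∉ bad X → char s ∉ bad (cyc X) → char s ∉ bad E →
    (r : ℤ) * st (cyc X) s = ((st X s : ℤ) ^ r + (r - 1) * st X s) * st E s

namespace FrobData

variable {r : ℕ} (T : FrobData.{u, v} r)

/-- For finitely many varieties there are maximal ideals `s` of arbitrarily large characteristic at
which the Frobenius of all of them is semisimple on the top cohomology. -/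
def Families : Prop := ∀ (F : List T.Var) (B : Finset ℕ), ∃ s, T.char s ∉ B ∧
  ∀ X ∈ F, T.char s ∉ T.bad X ∧ T.st X s = T.d X

/-- The same with stable ranks congruent to the dimensions modulo `r`. -/
def Congruences : Prop := ∀ (F : List T.Var) (B : Finset ℕ), ∃ s, T.char s ∉ B ∧
  ∀ X ∈ F, T.char s ∉ T.bad X ∧ (r : ℤ) ∣ (T.d X : ℤ) - T.st X s

/-- The semisimplicity for single varieties (Q1). -/
def Single : Prop := ∀ (X : T.Var) (B : Finset ℕ), ∃ s, T.char s ∉ B ∧
  T.char s ∉ T.bad X ∧ T.st X s = T.d X

variable {T}

theorem single (h : T.Families) : T.Single := by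
  intro X B
  obtain ⟨s, h1, h2⟩ := h [X] B
  exact ⟨s, h1, h2 X (List.mem_singleton.2 rfl)⟩

theorem main (hr : r.Prime) : T.Families ↔ T.Congruences := by
  classical
  constructor
  · intro h F B
    obtain ⟨s, h1, h2⟩ := h F B
    refine ⟨s, h1, fun X hX => ⟨(h2 X hX).1, ?_⟩⟩
    rw [(h2 X hX).2, sub_self]
    exact dvd_zero _
  · intro h F B
    set N := (F.map T.d).sum + 1 with hN
    obtain ⟨s, h1, h2⟩ := h (T.E :: F.flatMap fun X =>
      (List.range (N + 1)).map fun j => T.cyc^[j] X) (insert r B)
    rw [Finset.mem_insert, not_or] at h1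
    obtain ⟨hE1, hE2⟩ := h2 T.E List.mem_cons_self
    have hE : T.st T.E s = 1 := by
      have h3 := T.st_le T.E s hE1
      rw [T.d_E] at h3 hE2
      rcases Nat.lt_or_ge (T.st T.E s) 1 with h4 | h4
      · have h5 : T.st T.E s = 0 := by omega
        rw [h5] at hE2
        have h6 : r ∣ 1 := by
          have h7 : (r : ℤ) ∣ 1 := by simpa using hE2
          exact_mod_cast h7
        exact absurd (Nat.dvd_one.1 h6) hr.one_lt.ne'
      · omega
    refine ⟨s, h1.2, fun X hX => ?_⟩
    have hmem : ∀ j, j ≤ N → T.char s ∉ T.bad (T.cyc^[j] X) ∧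
        (r : ℤ) ∣ (T.d (T.cyc^[j] X) : ℤ) - T.st (T.cyc^[j] X) s := by
      intro j hj
      refine h2 _ (List.mem_cons_of_mem _ ?_)
      rw [List.mem_flatMap]
      refine ⟨X, hX, List.mem_map.2 ⟨j, List.mem_range.2 (by omega), rfl⟩⟩
    have hX0 := (hmem 0 (Nat.zero_le _)).1
    rw [Function.iterate_zero_apply] at hX0
    refine ⟨hX0, ?_⟩
    have h0 : (r : ℤ) ≠ 0 := by exact_mod_cast hr.ne_zero
    have h3 : ∀ k, 1 ≤ k → ∀ j, j + k ≤ N + 1 →
        (r : ℤ) ^ k ∣ (T.d (T.cyc^[j] X) : ℤ) - T.st (T.cyc^[j] X) s := by
      intro k hk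
      induction k, hk using Nat.le_induction with
      | base =>
        intro j hj
        rw [pow_one]
        exact (hmem j (by omega)).2
      | succ k hk ih =>
        intro j hj
        have e1 := T.d_cyc (T.cyc^[j] X)
        have e2 := T.st_cyc (T.cyc^[j] X) s h1.1 (hmem j (by omega)).1 (by
          have := (hmem (j + 1) (by omega)).1
          rwa [Function.iterate_succ_apply'] at this) hE1
        rw [hE, Nat.cast_one] at e2
        have h4 := ih (j + 1) (by omega)
        rw [Function.iterate_succ_apply'] at h4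
        exact step r (mem_nonZeroDivisors_of_ne_zero h0) (RingHom.id ℤ) 1
          (fun d hd => by simpa using hd) k hk _ _ _ _ (ih j (by omega)) h4
          (by rw [mul_one]; exact e1) (by exact e2)
    have h4 := h3 N (by omega) 0 (by omega)
    rw [Function.iterate_zero_apply] at h4
    have h5 := T.st_le X s hX0
    have h6 : T.d X ≤ (F.map T.d).sum := List.single_le_sum (by simp) _ (List.mem_map.2 ⟨X, hX, rfl⟩)
    have h7 : N < r ^ N := Nat.lt_pow_self hr.one_lt
    have h8 : (r : ℤ) ^ N = ((r ^ N : ℕ) : ℤ) := by push_cast; rfl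
    rw [h8] at h4
    by_contra hne
    have h9 := Int.le_of_dvd (by omega) h4
    omega

end FrobData

end Pool.Agent.U152.FS
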